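import Mathlib
import Pool.Agent.Helper223.Numbering

set_option autoImplicit false

/-! The field of fractions of a computably numbered subring of the reals with decidable zero test
has a computable presentation. -/

namespace Pool.Agent.H696R2.FR

open Pool.Agent.Helper223 (exists_field_numbering)

section

variable {A : Type} (ν : A → ℝ) (add mul : A → A → A) (neg : A → A) (z o : A)
  (cadd : ∀ x y, ν (add x y) = ν x + ν y) (cmul : ∀ x y, ν (mul x y) = ν x * ν y)
  (cneg : ∀ x, ν (neg x) = - ν x) (cz : ν z = 0) (co : ν o = 1)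

include cadd cmul cneg cz co in
theorem exists_frac_field : ∃ F : Subfield ℝ, ∀ x : ℝ, x ∈ F ↔ ∃ a b, x = ν a / ν b := by
  classical
  refine ⟨{ carrier := {x | ∃ a b, x = ν a / ν b}
            mul_mem' := ?_
            one_mem' := ?_
            add_mem' := ?_
            zero_mem' := ?_
            neg_mem' := ?_
            inv_mem' := ?_ }, fun x => Iff.rfl⟩
  · rintro x y ⟨a, b, rfl⟩ ⟨c, d, rfl⟩
    exact ⟨mul a c, mul b d, by rw [cmul, cmul, div_mul_div_comm]⟩
  · exact ⟨o, o, by rw [co]; norm_num⟩
  · rintro x y ⟨a, b, rfl⟩ ⟨c, d, rfl⟩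
    by_cases hb : ν b = 0
    · exact ⟨c, d, by rw [hb, div_zero, zero_add]⟩
    · by_cases hd : ν d = 0
      · exact ⟨a, b, by rw [hd, div_zero, add_zero]⟩
      · exact ⟨add (mul a d) (mul b c), mul b d, by
          rw [cadd, cmul, cmul, cmul, div_add_div _ _ hb hd]⟩
  · exact ⟨z, z, by rw [cz]; norm_num⟩
  · rintro x ⟨a, b, rfl⟩
    exact ⟨neg a, b, by rw [cneg, neg_div]⟩
  · rintro x ⟨a, b, rfl⟩
    exact ⟨b, a, by rw [inv_div]⟩

variable [Primcodable A] [Inhabited A]
  (hadd : Computable₂ add) (hmul : Computable₂ mul) (hneg : Computable neg)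
  (zt : A → Bool) (hzt : Computable zt) (czt : ∀ x, zt x = true ↔ ν x = 0)

include cadd cmul cneg cz co hadd hmul hneg hzt czt in
/-- Fractions over a computably numbered domain with zero test form a computable field. -/
theorem exists_frac_presentation : ∃ F : Subfield ℝ, (∀ a, ν a ∈ F) ∧ ∃ e : ℕ ≃ F,
      Computable₂ (fun a b : ℕ => e.symm (e a + e b)) ∧
      Computable₂ (fun a b : ℕ => e.symm (e a * e b)) ∧
      Computable (fun a : ℕ => e.symm (-(e a))) ∧
      Computable (fun a : ℕ => e.symm ((e a)⁻¹)) := by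
  obtain ⟨F, hF⟩ := exists_frac_field ν add mul neg z o cadd cmul cneg cz co
  refine ⟨F, fun a => (hF _).2 ⟨a, o, by rw [co, div_one]⟩, ?_⟩
  let c : A × A → F := fun p => ⟨ν p.1 / ν p.2, (hF _).2 ⟨p.1, p.2, rfl⟩⟩
  have hsurj : Function.Surjective c := by
    rintro ⟨x, hx⟩
    obtain ⟨a, b, rfl⟩ := (hF _).1 hx
    exact ⟨(a, b), rfl⟩
  have : Infinite F := Infinite.of_injective (fun n : ℕ => (n : F)) Nat.cast_injective
  -- operations on notations
  let fadd : A × A → A × A → A × A := fun p q =>
    cond (zt p.2) q (cond (zt q.2) p (add (mul p.1 q.2) (mul p.2 q.1), mul p.2 q.2))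
  let fmul : A × A → A × A → A × A := fun p q => (mul p.1 q.1, mul p.2 q.2)
  let fneg : A × A → A × A := fun p => (neg p.1, p.2)
  let finv : A × A → A × A := fun p => (p.2, p.1)
  let feq : A × A → A × A → Bool := fun p q =>
    cond (zt p.2) (zt q.1 || zt q.2) (cond (zt q.2) (zt p.1)
      (zt (add (mul p.1 q.2) (neg (mul q.1 p.2)))))
  have p11 : Computable (fun r : (A × A) × (A × A) => r.1.1) :=
    Computable.fst.comp Computable.fst
  have p12 : Computable (fun r : (A × A) × (A × A) => r.1.2) :=
    Computable.snd.comp Computable.fst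
  have p21 : Computable (fun r : (A × A) × (A × A) => r.2.1) :=
    Computable.fst.comp Computable.snd
  have p22 : Computable (fun r : (A × A) × (A × A) => r.2.2) :=
    Computable.snd.comp Computable.snd
  have hfadd : Computable₂ fadd := by
    refine Computable.cond (hzt.comp p12) Computable.snd ?_
    refine Computable.cond (hzt.comp p22) Computable.fst ?_
    exact Computable.pair (hadd.comp (hmul.comp p11 p22) (hmul.comp p12 p21)) (hmul.comp p12 p22)
  have hfmul : Computable₂ fmul :=
    Computable.pair (hmul.comp p11 p21) (hmul.comp p12 p22)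
  have hfneg : Computable fneg := Computable.pair (hneg.comp Computable.fst) Computable.snd
  have hfinv : Computable finv := Computable.pair Computable.snd Computable.fst
  have hfeq : Computable₂ feq := by
    refine Computable.cond (hzt.comp p12) ?_ ?_
    · exact (Primrec.or.to_comp).comp (hzt.comp p21) (hzt.comp p22)
    · refine Computable.cond (hzt.comp p22) (hzt.comp p11) ?_
      exact hzt.comp (hadd.comp (hmul.comp p11 p22) (hneg.comp (hmul.comp p21 p12)))
  have ztf : ∀ x, zt x = false ↔ ν x ≠ 0 := by
    intro x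
    rw [Ne, ← czt, Bool.not_eq_true]
  have hA : ∀ p q, c (fadd p q) = c p + c q := by
    intro p q
    apply Subtype.ext
    show ν (fadd p q).1 / ν (fadd p q).2 = ν p.1 / ν p.2 + ν q.1 / ν q.2
    by_cases hp : ν p.2 = 0
    · simp only [fadd, (czt p.2).2 hp, cond_true, hp, div_zero, zero_add]
    · by_cases hq : ν q.2 = 0
      · simp only [fadd, (ztf p.2).2 hp, (czt q.2).2 hq, cond_true, cond_false, hq, div_zero,
          add_zero]
      · simp only [fadd, (ztf p.2).2 hp, (ztf q.2).2 hq, cond_false]
        rw [cadd, cmul, cmul, cmul, div_add_div _ _ hp hq]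
  have hM : ∀ p q, c (fmul p q) = c p * c q := by
    intro p q
    apply Subtype.ext
    show ν (mul p.1 q.1) / ν (mul p.2 q.2) = ν p.1 / ν p.2 * (ν q.1 / ν q.2)
    rw [cmul, cmul, div_mul_div_comm]
  have hN : ∀ p, c (fneg p) = - c p := by
    intro p
    apply Subtype.ext
    show ν (neg p.1) / ν p.2 = - (ν p.1 / ν p.2)
    rw [cneg, neg_div]
  have hI : ∀ p, c (finv p) = (c p)⁻¹ := by
    intro p
    apply Subtype.ext
    show ν p.2 / ν p.1 = (ν p.1 / ν p.2)⁻¹
    rw [inv_div]
  have hE : ∀ p q, feq p q = true ↔ c p = c q := by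
    intro p q
    have hceq : c p = c q ↔ ν p.1 / ν p.2 = ν q.1 / ν q.2 := Subtype.ext_iff
    rw [hceq]
    by_cases hp : ν p.2 = 0
    · simp only [feq, (czt p.2).2 hp, cond_true, hp, div_zero, Bool.or_eq_true, czt]
      constructor
      · rintro (h | h) <;> simp [h]
      · intro h
        rcases div_eq_zero_iff.1 h.symm with h | h
        · exact Or.inl h
        · exact Or.inr h
    · by_cases hq : ν q.2 = 0
      · simp only [feq, (ztf p.2).2 hp, (czt q.2).2 hq, cond_true, cond_false, hq, div_zero, czt]
        constructor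
        · intro h; simp [h]
        · intro h
          rcases div_eq_zero_iff.1 h with h | h
          · exact h
          · exact absurd h hp
      · simp only [feq, (ztf p.2).2 hp, (ztf q.2).2 hq, cond_false, czt]
        rw [cadd, cneg, cmul, cmul, div_eq_div_iff hp hq]
        constructor
        · intro h; linarith
        · intro h; linarith
  obtain ⟨e, u, v, -, -, -, -, h1, h2, h3, h4⟩ :=
    exists_field_numbering c hsurj fadd fmul fneg finv hfadd hfmul hfneg hfinv hA hM hN hI feq
      hfeq hE
  exact ⟨e, h1, h2, h3, h4⟩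

end

end Pool.Agent.H696R2.FR
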