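import Mathlib
import Pool.Agent.H696R2.FR.Frac

set_option autoImplicit false

/-! Linear independence of products of square roots of polynomials with private simple roots. -/

namespace Pool.Agent.H696R2.FR

open Polynomial

/-- adjoin a square root to a subfield of the reals -/
def adjSqrt (L : Subfield ℝ) (s : ℝ) (hs : s * s ∈ L) : Subfield ℝ where
  carrier := {x | ∃ a ∈ L, ∃ b ∈ L, x = a + b * s}
  mul_mem' := by
    rintro x y ⟨a, ha, b, hb, rfl⟩ ⟨c, hc, d, hd, rfl⟩
    refine ⟨a * c + b * d * (s * s), L.add_mem (L.mul_mem ha hc) (L.mul_mem (L.mul_mem hb hd) hs),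
      a * d + b * c, L.add_mem (L.mul_mem ha hd) (L.mul_mem hb hc), by ring⟩
  one_mem' := ⟨1, L.one_mem, 0, L.zero_mem, by ring⟩
  add_mem' := by
    rintro x y ⟨a, ha, b, hb, rfl⟩ ⟨c, hc, d, hd, rfl⟩
    exact ⟨a + c, L.add_mem ha hc, b + d, L.add_mem hb hd, by ring⟩
  zero_mem' := ⟨0, L.zero_mem, 0, L.zero_mem, by ring⟩
  neg_mem' := by
    rintro x ⟨a, ha, b, hb, rfl⟩
    exact ⟨-a, L.neg_mem ha, -b, L.neg_mem hb, by ring⟩
  inv_mem' := by
    rintro x ⟨a, ha, b, hb, rfl⟩
    by_cases h1 : a + b * s = 0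
    · exact ⟨0, L.zero_mem, 0, L.zero_mem, by rw [h1]; simp⟩
    · by_cases h2 : a - b * s = 0
      · refine ⟨(2 * a)⁻¹, L.inv_mem (L.mul_mem (by
          have : (2 : ℝ) = 1 + 1 := by norm_num
          rw [this]; exact L.add_mem L.one_mem L.one_mem) ha), 0, L.zero_mem, ?_⟩
        have : b * s = a := by linarith
        rw [this]; ring
      · have h3 : a * a - b * b * (s * s) ≠ 0 := by
          have : a * a - b * b * (s * s) = (a + b * s) * (a - b * s) := by ring
          rw [this]; exact mul_ne_zero h1 h2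
        have h4 : a * a - b * b * (s * s) ∈ L :=
          L.sub_mem (L.mul_mem ha ha) (L.mul_mem (L.mul_mem hb hb) hs)
        refine ⟨a * (a * a - b * b * (s * s))⁻¹, L.mul_mem ha (L.inv_mem h4),
          -b * (a * a - b * b * (s * s))⁻¹, L.mul_mem (L.neg_mem hb) (L.inv_mem h4), ?_⟩
        have h5 : a * a - b * b * (s * s) = (a + b * s) * (a - b * s) := by ring
        rw [h5]
        field_simp
        ring

theorem mem_adjSqrt {L : Subfield ℝ} {s : ℝ} {hs : s * s ∈ L} {x : ℝ} :
    x ∈ adjSqrt L s hs ↔ ∃ a ∈ L, ∃ b ∈ L, x = a + b * s := Iff.rfl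

theorem le_adjSqrt (L : Subfield ℝ) (s : ℝ) (hs : s * s ∈ L) : L ≤ adjSqrt L s hs :=
  fun x hx => ⟨x, hx, 0, L.zero_mem, by ring⟩

section

variable (K : Subfield ℝ) (s : ℕ → ℝ) (hs : ∀ i, s i * s i ∈ K)

/-- the tower of square roots -/
noncomputable def LL : ℕ → {L : Subfield ℝ // K ≤ L}
  | 0 => ⟨K, le_rfl⟩
  | k + 1 => ⟨adjSqrt (LL k).1 (s k) ((LL k).2 (hs k)), (LL k).2.trans (le_adjSqrt _ _ _)⟩

theorem mem_LL_succ (k : ℕ) (x : ℝ) : x ∈ (LL K s hs (k + 1)).1 ↔
    ∃ a ∈ (LL K s hs k).1, ∃ b ∈ (LL K s hs k).1, x = a + b * s k := Iff.rfl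

theorem LL_mono (k : ℕ) : (LL K s hs k).1 ≤ (LL K s hs (k + 1)).1 :=
  fun x hx => (mem_LL_succ K s hs k x).2 ⟨x, hx, 0, (LL K s hs k).1.zero_mem, by ring⟩

theorem LL_mem {i k : ℕ} (h : i < k) : s i ∈ (LL K s hs k).1 := by
  induction k with
  | zero => omega
  | succ k ih =>
    rcases Nat.lt_succ_iff_lt_or_eq.1 h with h | h
    · exact LL_mono K s hs k (ih h)
    · subst h
      exact (mem_LL_succ K s hs i _).2
        ⟨0, (LL K s hs i).1.zero_mem, 1, (LL K s hs i).1.one_mem, by ring⟩

theorem sq_descend (k : ℕ) : ∀ a ∈ K, (∃ y ∈ (LL K s hs k).1, y * y = a) →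
    ∃ S ⊆ Finset.range k, ∃ y ∈ K, y * y = a * ∏ i ∈ S, (s i * s i) := by
  induction k with
  | zero =>
    rintro a ha ⟨y, hy, hya⟩
    exact ⟨∅, by simp, y, hy, by simpa using hya⟩
  | succ k ih =>
    rintro a ha ⟨y, hy, hya⟩
    by_cases hk : s k ∈ (LL K s hs k).1
    · obtain ⟨b, hb, c, hc, rfl⟩ := (mem_LL_succ K s hs k y).1 hy
      obtain ⟨S, hS, y', hy', h⟩ := ih a ha
        ⟨_, (LL K s hs k).1.add_mem hb ((LL K s hs k).1.mul_mem hc hk), hya⟩
      exact ⟨S, hS.trans (Finset.range_mono (Nat.le_succ k)), y', hy', h⟩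
    · obtain ⟨b, hb, c, hc, rfl⟩ := (mem_LL_succ K s hs k y).1 hy
      have hbc : 2 * (b * c) = 0 := by
        by_contra hne
        apply hk
        have h1 : s k = (a - b * b - c * c * (s k * s k)) / (2 * (b * c)) := by
          rw [eq_div_iff hne]
          rw [← hya]; ring
        rw [h1]
        have h2 : (2 : ℝ) ∈ (LL K s hs k).1 := by
          have : (2 : ℝ) = 1 + 1 := by norm_num
          rw [this]
          exact (LL K s hs k).1.add_mem (LL K s hs k).1.one_mem (LL K s hs k).1.one_mem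
        refine (LL K s hs k).1.div_mem ?_ ?_
        · refine (LL K s hs k).1.sub_mem ((LL K s hs k).1.sub_mem ((LL K s hs k).2 ha) ?_) ?_
          · exact (LL K s hs k).1.mul_mem hb hb
          · exact (LL K s hs k).1.mul_mem ((LL K s hs k).1.mul_mem hc hc) ((LL K s hs k).2 (hs k))
        · exact (LL K s hs k).1.mul_mem h2 ((LL K s hs k).1.mul_mem hb hc)
      have hbc' : b = 0 ∨ c = 0 := by
        have : b * c = 0 := by linarith
        exact mul_eq_zero.1 this
      rcases hbc' with h0 | h0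
      · subst h0
        obtain ⟨S, hS, y', hy', h⟩ := ih (a * (s k * s k)) (K.mul_mem ha (hs k))
          ⟨c * (s k * s k), (LL K s hs k).1.mul_mem hc ((LL K s hs k).2 (hs k)), by
            rw [← hya]; ring⟩
        have hkS : k ∉ S := fun hkS => by simpa using hS hkS
        refine ⟨insert k S, ?_, y', hy', ?_⟩
        · intro i hi
          rcases Finset.mem_insert.1 hi with rfl | hi
          · simp
          · exact Finset.range_mono (Nat.le_succ k) (hS hi)
        · rw [Finset.prod_insert hkS, h]; ring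
      · subst h0
        obtain ⟨S, hS, y', hy', h⟩ := ih a ha ⟨b, hb, by rw [← hya]; ring⟩
        exact ⟨S, hS.trans (Finset.range_mono (Nat.le_succ k)), y', hy', h⟩

variable (hns : ∀ S : Finset ℕ, S.Nonempty → ¬ ∃ y ∈ K, y * y = ∏ i ∈ S, (s i * s i))

include hns in
theorem not_mem_LL (k : ℕ) : s k ∉ (LL K s hs k).1 := by
  intro hk
  obtain ⟨S, hS, y, hy, h⟩ := sq_descend K s hs k (s k * s k) (hs k) ⟨s k, hk, rfl⟩
  have hkS : k ∉ S := fun hkS => by simpa using hS hkS
  exact hns (insert k S) (Finset.insert_nonempty _ _) ⟨y, hy, by rw [Finset.prod_insert hkS, h]⟩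

include hs hns in
theorem indep (k : ℕ) : ∀ c : Finset ℕ → ℝ, (∀ S, c S ∈ K) →
    ∑ S ∈ (Finset.range k).powerset, c S * ∏ i ∈ S, s i = 0 →
    ∀ S ⊆ Finset.range k, c S = 0 := by
  induction k with
  | zero =>
    intro c hc h S hS
    have : S = ∅ := Finset.subset_empty.1 (by simpa using hS)
    subst this
    simpa using h
  | succ k ih =>
    intro c hc h S hS
    rw [Finset.range_add_one, Finset.sum_powerset_insert (by simp)] at h
    have hmem : ∀ (f : Finset ℕ → ℝ), (∀ S, f S ∈ K) →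
        ∑ S ∈ (Finset.range k).powerset, f S * ∏ i ∈ S, s i ∈ (LL K s hs k).1 := by
      intro f hf
      refine (LL K s hs k).1.sum_mem fun T hT => ?_
      refine (LL K s hs k).1.mul_mem ((LL K s hs k).2 (hf T)) ((LL K s hs k).1.prod_mem ?_)
      intro i hi
      exact LL_mem K s hs (by simpa using Finset.mem_powerset.1 hT hi)
    have h2 : ∑ t ∈ (Finset.range k).powerset, c (insert k t) * ∏ i ∈ insert k t, s i =
        (∑ t ∈ (Finset.range k).powerset, c (insert k t) * ∏ i ∈ t, s i) * s k := by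
      rw [Finset.sum_mul]
      refine Finset.sum_congr rfl fun t ht => ?_
      have hkt : k ∉ t := fun hkt => by simpa using Finset.mem_powerset.1 ht hkt
      rw [Finset.prod_insert hkt]; ring
    rw [h2] at h
    have hA := hmem c hc
    have hB := hmem (fun t => c (insert k t)) (fun t => hc _)
    have hB0 : ∑ t ∈ (Finset.range k).powerset, c (insert k t) * ∏ i ∈ t, s i = 0 := by
      by_contra hne
      apply not_mem_LL K s hs hns k
      have : s k = - (∑ S ∈ (Finset.range k).powerset, c S * ∏ i ∈ S, s i) /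
          (∑ t ∈ (Finset.range k).powerset, c (insert k t) * ∏ i ∈ t, s i) := by
        rw [eq_div_iff hne]; linarith
      rw [this]
      exact (LL K s hs k).1.div_mem ((LL K s hs k).1.neg_mem hA) hB
    rw [hB0, zero_mul, add_zero] at h
    by_cases hkS : k ∈ S
    · have h3 := ih (fun t => c (insert k t)) (fun t => hc _) hB0 (S.erase k) ?_
      · simpa [Finset.insert_erase hkS] using h3
      · intro i hi
        have h4 := hS (Finset.mem_of_mem_erase hi)
        have h5 := Finset.ne_of_mem_erase hi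
        simp at h4 ⊢
        omega
    · refine ih c hc h S ?_
      intro i hi
      have h4 := hS hi
      have h5 : i ≠ k := fun h => hkS (h ▸ hi)
      simp at h4 ⊢
      omega

end

end Pool.Agent.H696R2.FR
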