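import Mathlib
import Pool.Agent.H696R2.FR.Indep

set_option autoImplicit false

/-! Polynomial square roots over `ℤ[τ]`, `τ` transcendental, and words in them. -/

namespace Pool.Agent.H696R2.FR

open Polynomial

theorem rootMultiplicity_prod (x : ℚ) (f : ℕ → ℚ[X]) (S : Finset ℕ) (hf : ∀ i ∈ S, f i ≠ 0) :
    rootMultiplicity x (∏ i ∈ S, f i) = ∑ i ∈ S, rootMultiplicity x (f i) := by
  classical
  induction S using Finset.induction_on with
  | empty => simp
  | insert a S ha ih =>
    rw [Finset.prod_insert ha, Finset.sum_insert ha, rootMultiplicity_mul, ih]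
    · intro i hi; exact hf i (Finset.mem_insert_of_mem hi)
    · exact mul_ne_zero (hf a (Finset.mem_insert_self _ _))
        (Finset.prod_ne_zero_iff.2 fun i hi => hf i (Finset.mem_insert_of_mem hi))

/-- data of the construction -/
structure Dat where
  V : ℕ → ℤ[X]
  τ : ℝ
  r : ℕ → ℚ
  trans : Transcendental ℤ τ
  mult : ∀ i, rootMultiplicity (r i) ((V i).map (Int.castRingHom ℚ)) = 1
  nonroot : ∀ i j, i ≠ j → ((V j).map (Int.castRingHom ℚ)).eval (r i) ≠ 0
  pos : ∀ i, 0 < aeval τ (V i)
  deg : ∀ i, (V i).natDegree ≤ 2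

namespace Dat

variable (D : Dat)

/-- evaluation at `τ` -/
noncomputable def ev (p : ℤ[X]) : ℝ := aeval D.τ p

theorem ev_zero : D.ev 0 = 0 := map_zero _
theorem ev_one : D.ev 1 = 1 := map_one _
theorem ev_add (p q : ℤ[X]) : D.ev (p + q) = D.ev p + D.ev q := map_add _ _ _
theorem ev_mul (p q : ℤ[X]) : D.ev (p * q) = D.ev p * D.ev q := map_mul _ _ _
theorem ev_neg (p : ℤ[X]) : D.ev (-p) = - D.ev p := map_neg _ _

theorem ev_inj {p q : ℤ[X]} (h : D.ev p = D.ev q) : p = q :=
  (transcendental_iff_injective.1 D.trans) h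

theorem exists_K : ∃ K : Subfield ℝ, ∀ x : ℝ, x ∈ K ↔ ∃ a b : ℤ[X], x = D.ev a / D.ev b :=
  exists_frac_field D.ev (· + ·) (· * ·) (fun p => -p) 0 1 D.ev_add D.ev_mul D.ev_neg D.ev_zero
    D.ev_one

/-- the base field -/
noncomputable def K : Subfield ℝ := D.exists_K.choose

theorem mem_K (x : ℝ) : x ∈ D.K ↔ ∃ a b : ℤ[X], x = D.ev a / D.ev b := D.exists_K.choose_spec x

theorem ev_mem (p : ℤ[X]) : D.ev p ∈ D.K := (D.mem_K _).2 ⟨p, 1, by rw [ev_one, div_one]⟩

/-- the square roots -/
noncomputable def s (i : ℕ) : ℝ := Real.sqrt (D.ev (D.V i))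

theorem s_sq (i : ℕ) : D.s i * D.s i = D.ev (D.V i) := Real.mul_self_sqrt (D.pos i).le

theorem s_sq_mem (i : ℕ) : D.s i * D.s i ∈ D.K := by rw [s_sq]; exact D.ev_mem _

theorem ev_prod (S : Finset ℕ) : D.ev (∏ i ∈ S, D.V i) = ∏ i ∈ S, D.ev (D.V i) := by
  unfold ev
  exact map_prod _ _ _

theorem nonsq (S : Finset ℕ) (hS : S.Nonempty) :
    ¬ ∃ y ∈ D.K, y * y = ∏ i ∈ S, (D.s i * D.s i) := by
  rintro ⟨y, hy, h⟩
  obtain ⟨a, b, rfl⟩ := (D.mem_K y).1 hy
  have h1 : ∏ i ∈ S, (D.s i * D.s i) = D.ev (∏ i ∈ S, D.V i) := by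
    rw [ev_prod]; exact Finset.prod_congr rfl fun i _ => D.s_sq i
  have hpos : 0 < D.ev (∏ i ∈ S, D.V i) := by
    rw [ev_prod]; exact Finset.prod_pos fun i _ => D.pos i
  rw [h1] at h
  have hb : D.ev b ≠ 0 := by
    intro hb
    rw [hb, div_zero, mul_zero] at h
    linarith
  have h2 : D.ev (a * a) = D.ev (b * b * ∏ i ∈ S, D.V i) := by
    rw [ev_mul, ev_mul, ev_mul, ← h]
    field_simp
  have h3 := D.ev_inj h2
  have hb0 : b ≠ 0 := by rintro rfl; exact hb D.ev_zero
  have hV0 : ∀ i, (D.V i).map (Int.castRingHom ℚ) ≠ 0 := by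
    intro i h0
    have := D.mult i
    rw [h0, rootMultiplicity_zero] at this
    omega
  have hinj : Function.Injective (Polynomial.map (Int.castRingHom ℚ)) :=
    Polynomial.map_injective _ (RingHom.injective_int _)
  have hbQ : b.map (Int.castRingHom ℚ) ≠ 0 := by
    intro h0; exact hb0 (hinj (by rw [h0, Polynomial.map_zero]))
  have hP0 : ∏ i ∈ S, (D.V i).map (Int.castRingHom ℚ) ≠ 0 :=
    Finset.prod_ne_zero_iff.2 fun i _ => hV0 i
  have h4 : (a.map (Int.castRingHom ℚ)) * (a.map (Int.castRingHom ℚ)) =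
      (b.map (Int.castRingHom ℚ)) * (b.map (Int.castRingHom ℚ)) *
        ∏ i ∈ S, (D.V i).map (Int.castRingHom ℚ) := by
    rw [← Polynomial.map_mul, h3, Polynomial.map_mul, Polynomial.map_mul, Polynomial.map_prod]
  have hR0 : (b.map (Int.castRingHom ℚ)) * (b.map (Int.castRingHom ℚ)) *
        ∏ i ∈ S, (D.V i).map (Int.castRingHom ℚ) ≠ 0 := mul_ne_zero (mul_ne_zero hbQ hbQ) hP0
  obtain ⟨i, hi⟩ := hS
  have h5 := congrArg (rootMultiplicity (D.r i)) h4
  rw [rootMultiplicity_mul (by rw [h4]; exact hR0), rootMultiplicity_mul hR0,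
    rootMultiplicity_mul (mul_ne_zero hbQ hbQ), rootMultiplicity_prod _ _ _ fun j _ => hV0 j] at h5
  have h6 : ∑ j ∈ S, rootMultiplicity (D.r i) ((D.V j).map (Int.castRingHom ℚ)) = 1 := by
    rw [Finset.sum_eq_single i]
    · exact D.mult i
    · intro j _ hji
      exact rootMultiplicity_eq_zero (D.nonroot i j (Ne.symm hji))
    · intro h; exact absurd hi h
  rw [h6] at h5
  omega

theorem indep' (k : ℕ) (c : Finset ℕ → ℤ[X])
    (h : ∑ S ∈ (Finset.range k).powerset, D.ev (c S) * ∏ i ∈ S, D.s i = 0) (S : Finset ℕ)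
    (hS : S ⊆ Finset.range k) : c S = 0 := by
  have := indep D.K D.s D.s_sq_mem D.nonsq k (fun S => D.ev (c S)) (fun S => D.ev_mem _) h S hS
  exact D.ev_inj (this.trans D.ev_zero.symm)

/-! ### Words -/

/-- value of a letter: `0 ↦ τ`, `i + 1 ↦ s i` -/
noncomputable def lv : ℕ → ℝ
  | 0 => D.τ
  | i + 1 => D.s i

/-- value of a word -/
noncomputable def wv (w : List ℕ) : ℝ := (w.map D.lv).prod

/-- letters of odd multiplicity -/
def odd : List ℕ → Finset ℕ
  | [] => ∅
  | 0 :: w => odd w
  | (i + 1) :: w => if i ∈ odd w then (odd w).erase i else insert i (odd w)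

/-- the polynomial factor -/
noncomputable def P : List ℕ → ℤ[X]
  | [] => 1
  | 0 :: w => X * P w
  | (i + 1) :: w => if i ∈ odd w then D.V i * P w else P w

theorem wv_eq (w : List ℕ) : D.wv w = D.ev (D.P w) * ∏ i ∈ odd w, D.s i := by
  induction w with
  | nil => simp [wv, P, odd, ev_one]
  | cons j w ih =>
    have h0 : D.wv (j :: w) = D.lv j * D.wv w := by simp [wv]
    rw [h0, ih]
    cases j with
    | zero =>
      show D.τ * _ = D.ev (X * D.P w) * _
      rw [ev_mul]
      have : D.ev X = D.τ := aeval_X _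
      rw [this]; simp only [odd]; ring
    | succ i =>
      show D.s i * _ = _
      by_cases hi : i ∈ odd w
      · simp only [P, odd, hi, if_true, ev_mul]
        rw [← Finset.mul_prod_erase (odd w) D.s hi, ← D.s_sq i]
        ring
      · simp only [P, odd, hi, if_false]
        rw [Finset.prod_insert hi]
        ring

theorem mem_odd (w : List ℕ) (i : ℕ) : i ∈ odd w ↔ w.count (i + 1) % 2 = 1 := by
  induction w with
  | nil => simp [odd]
  | cons j w ih =>
    cases j with
    | zero =>
      simp only [odd]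
      rw [ih, List.count_cons_of_ne (by omega)]
    | succ j =>
      simp only [odd]
      by_cases hij : i = j
      · subst hij
        rw [List.count_cons_self]
        by_cases hi : i ∈ odd w
        · rw [if_pos hi]
          have := ih.1 hi
          simp only [Finset.mem_erase, ne_eq, not_true_eq_false, false_and, false_iff]
          omega
        · rw [if_neg hi]
          have : ¬ (w.count (i + 1) % 2 = 1) := fun h => hi (ih.2 h)
          simp only [Finset.mem_insert, true_or, true_iff]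
          omega
      · rw [List.count_cons_of_ne (by omega), ← ih]
        by_cases hj : j ∈ odd w
        · rw [if_pos hj]; simp [hij]
        · rw [if_neg hj]; simp [hij]

theorem P_deg (w : List ℕ) : (D.P w).natDegree ≤ 2 * w.length := by
  induction w with
  | nil => simp [P]
  | cons j w ih =>
    cases j with
    | zero =>
      show (X * D.P w).natDegree ≤ _
      refine natDegree_mul_le.trans ?_
      have : (X : ℤ[X]).natDegree ≤ 1 := natDegree_X_le
      simp only [List.length_cons]; omega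
    | succ i =>
      simp only [P, List.length_cons]
      split_ifs
      · refine natDegree_mul_le.trans ?_
        have := D.deg i
        omega
      · omega

end Dat

end Pool.Agent.H696R2.FR
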