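import Mathlib
import Pool.Agent.H696R2.FR.Poly

set_option autoImplicit false

/-! Formal sums of words and their zero test. -/

namespace Pool.Agent.H696R2.FR

open Polynomial

/-- formal sums of words -/
abbrev FS := List (ℤ × List ℕ)

namespace Dat

variable (D : Dat)

/-- value of a formal sum -/
noncomputable def nu (l : FS) : ℝ := (l.map (fun p => (p.1 : ℝ) * D.wv p.2)).sum

/-- coefficient of the basis element `S` -/
noncomputable def Q (l : FS) (S : Finset ℕ) : ℤ[X] :=
  (l.map (fun p => if odd p.2 = S then C p.1 * D.P p.2 else 0)).sum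

theorem Q_cons (p : ℤ × List ℕ) (l : FS) (S : Finset ℕ) :
    D.Q (p :: l) S = (if odd p.2 = S then C p.1 * D.P p.2 else 0) + D.Q l S := by
  simp [Q]

theorem nu_cons (p : ℤ × List ℕ) (l : FS) : D.nu (p :: l) = (p.1 : ℝ) * D.wv p.2 + D.nu l := by
  simp [nu]

theorem nu_eq (k : ℕ) (l : FS) (hl : ∀ p ∈ l, odd p.2 ⊆ Finset.range k) :
    D.nu l = ∑ S ∈ (Finset.range k).powerset, D.ev (D.Q l S) * ∏ i ∈ S, D.s i := by
  induction l with
  | nil => simp [nu, Q, ev_zero]
  | cons p l ih =>
    rw [nu_cons, ih fun q hq => hl q (List.mem_cons_of_mem _ hq)]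
    have h1 : ∀ S ∈ (Finset.range k).powerset, D.ev (D.Q (p :: l) S) * ∏ i ∈ S, D.s i =
        (if odd p.2 = S then (p.1 : ℝ) * D.wv p.2 else 0) +
        D.ev (D.Q l S) * ∏ i ∈ S, D.s i := by
      intro S _
      rw [Q_cons, ev_add, add_mul]
      congr 1
      split_ifs with h
      · subst h
        rw [ev_mul, wv_eq]
        have : D.ev (C p.1) = (p.1 : ℝ) := by
          unfold ev
          simp
        rw [this]; ring
      · rw [ev_zero, zero_mul]
    rw [Finset.sum_congr rfl h1, Finset.sum_add_distrib]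
    congr 1
    rw [Finset.sum_ite_eq, if_pos]
    exact Finset.mem_powerset.2 (hl p List.mem_cons_self)

/-- degree bound -/
def len (l : FS) : ℕ := (l.map (fun p => p.2.length)).sum

theorem Q_deg (l : FS) (S : Finset ℕ) : (D.Q l S).natDegree ≤ 2 * len l := by
  induction l with
  | nil => simp [Q, len]
  | cons p l ih =>
    rw [Q_cons]
    refine (natDegree_add_le _ _).trans (max_le ?_ ?_)
    · have h1 := D.P_deg p.2
      have h2 : len (p :: l) = p.2.length + len l := by simp [len]
      rw [h2]
      split_ifs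
      · refine natDegree_mul_le.trans ?_
        rw [natDegree_C]
        omega
      · simp
    · have h2 : len (p :: l) = p.2.length + len l := by simp [len]
      rw [h2]; omega

theorem Q_eval (l : FS) (S : Finset ℕ) (N : ℤ) : (D.Q l S).eval N =
    (l.map (fun p => if odd p.2 = S then p.1 * (D.P p.2).eval N else 0)).sum := by
  induction l with
  | nil => simp [Q]
  | cons p l ih =>
    rw [Q_cons, eval_add, ih, List.map_cons, List.sum_cons]
    congr 1
    split_ifs
    · simp
    · simp

theorem nu_eq_zero_iff (l : FS) : D.nu l = 0 ↔ ∀ q ∈ l, ∀ N < 2 * len l + 1,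
    (l.map (fun p => if odd p.2 = odd q.2 then p.1 * (D.P p.2).eval (N : ℤ) else 0)).sum = 0 := by
  obtain ⟨k, hk⟩ : ∃ k, ∀ p ∈ l, odd p.2 ⊆ Finset.range k := by
    induction l with
    | nil => exact ⟨0, by simp⟩
    | cons p l ih =>
      obtain ⟨k, hk⟩ := ih
      refine ⟨max k ((odd p.2).sup id + 1), ?_⟩
      intro q hq
      rcases List.mem_cons.1 hq with rfl | hq
      · intro i hi
        have : i ≤ (odd q.2).sup id := Finset.le_sup (f := id) hi
        simp; right; omega
      · exact (hk q hq).trans (Finset.range_mono (le_max_left _ _))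
  constructor
  · intro h q hq N _
    rw [D.nu_eq k l hk] at h
    rw [← D.Q_eval, D.indep' k (D.Q l) h (odd q.2) (hk q hq), eval_zero]
  · intro h
    rw [D.nu_eq k l hk]
    refine Finset.sum_eq_zero fun S _ => ?_
    have hQ : D.Q l S = 0 := by
      by_cases hS : ∃ q ∈ l, odd q.2 = S
      · obtain ⟨q, hq, rfl⟩ := hS
        refine Polynomial.eq_zero_of_natDegree_lt_card_of_eval_eq_zero (D.Q l (odd q.2))
          (f := fun N : Fin (2 * len l + 1) => ((N : ℕ) : ℤ)) ?_ ?_ ?_
        · intro a b hab
          have hab' : ((a : ℕ) : ℤ) = ((b : ℕ) : ℤ) := hab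
          exact Fin.ext (by exact_mod_cast hab')
        · intro N
          rw [D.Q_eval]
          exact h q hq N N.2
        · rw [Fintype.card_fin]
          have := D.Q_deg l (odd q.2)
          omega
      · unfold Q
        apply List.sum_eq_zero
        intro x hx
        obtain ⟨p, hp, rfl⟩ := List.mem_map.1 hx
        rw [if_neg fun h => hS ⟨p, hp, h⟩]
    rw [hQ, ev_zero, zero_mul]

/-! ### operations -/

/-- product of formal sums -/
def mulF (p q : FS) : FS := p.flatMap (fun m => q.map (fun m' => (m.1 * m'.1, m.2 ++ m'.2)))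
/-- negative of a formal sum -/
def negF (p : FS) : FS := p.map (fun m => (- m.1, m.2))
/-- sum of formal sums -/
def addF (p q : FS) : FS := p ++ q

theorem wv_append (v w : List ℕ) : D.wv (v ++ w) = D.wv v * D.wv w := by
  simp [wv]

theorem nu_nil : D.nu [] = 0 := by simp [nu]

theorem nu_one : D.nu [(1, [])] = 1 := by simp [nu, wv]

theorem nu_add (p q : FS) : D.nu (addF p q) = D.nu p + D.nu q := by
  simp [addF, nu]

theorem nu_neg (p : FS) : D.nu (negF p) = - D.nu p := by
  induction p with
  | nil => simp [nu, negF]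
  | cons m p ih =>
    have : negF (m :: p) = (-m.1, m.2) :: negF p := rfl
    rw [this, nu_cons, nu_cons, ih]
    push_cast
    ring

theorem nu_map (m : ℤ × List ℕ) (q : FS) :
    D.nu (q.map (fun m' => (m.1 * m'.1, m.2 ++ m'.2))) = (m.1 : ℝ) * D.wv m.2 * D.nu q := by
  induction q with
  | nil => simp [nu]
  | cons n q ihq =>
    rw [List.map_cons, nu_cons, nu_cons, ihq]
    simp only [wv_append]
    push_cast
    ring

theorem nu_mul (p q : FS) : D.nu (mulF p q) = D.nu p * D.nu q := by
  induction p with
  | nil => simp [nu, mulF]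
  | cons m p ih =>
    have h1 : mulF (m :: p) q = addF (q.map (fun m' => (m.1 * m'.1, m.2 ++ m'.2))) (mulF p q) := rfl
    rw [h1, nu_add, ih, nu_cons, add_mul, nu_map]

end Dat

end Pool.Agent.H696R2.FR
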