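import Mathlib
import Pool.Agent.H696R2.FR.IntPrim
import Pool.Agent.H696R2.FR.ZeroTest

set_option autoImplicit false

/-! The concrete polynomials. -/

namespace Pool.Agent.H696R2.FR

open Polynomial
open Nat.Partrec (Code)

/-- scale number `e` -/
def NN (e : ℕ) : ℕ := 2 ^ (2 ^ (e + 2)) + 1

/-- admissible value -/
def adm (e k : ℕ) : Option ℕ := if 0 < k ∧ k + 1 < NN e then some k else none

/-- the value of program `e` on input `e`, if it is found exactly at stage `s + 1` -/
def newVal (e s : ℕ) : Option ℕ :=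
  Option.casesOn (motive := fun _ => Option ℕ) (Code.evaln s (Denumerable.ofNat Code e) e)
    ((Code.evaln (s + 1) (Denumerable.ofNat Code e) e).bind (adm e)) (fun _ => none)

/-- parameters of the polynomials -/
def par (i : ℕ) : (ℤ × ℤ) × (ℤ × ℤ) :=
  Nat.casesOn (motive := fun _ => (ℤ × ℤ) × (ℤ × ℤ)) i ((4, -1), (-4, 3))
    (fun j => Option.casesOn (motive := fun _ => (ℤ × ℤ) × (ℤ × ℤ))
      (newVal j.unpair.1 j.unpair.2) ((1, ((j + 1 : ℕ) : ℤ)), (0, 1))
      (fun k => (((NN j.unpair.1 : ℤ), -(k : ℤ)), ((NN j.unpair.1 : ℤ), -((k + 1 : ℕ) : ℤ)))))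

theorem newVal_eq_some {e s k : ℕ} : newVal e s = some k ↔
    Code.evaln s (Denumerable.ofNat Code e) e = none ∧
    Code.evaln (s + 1) (Denumerable.ofNat Code e) e = some k ∧ 0 < k ∧ k + 1 < NN e := by
  unfold newVal adm
  cases h : Code.evaln s (Denumerable.ofNat Code e) e with
  | none =>
    simp only [true_and]
    cases h2 : Code.evaln (s + 1) (Denumerable.ofNat Code e) e with
    | none => simp
    | some m =>
      simp only [Option.bind_some, Option.some.injEq]
      split_ifs with h3
      · simp only [Option.some.injEq]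
        constructor
        · rintro rfl; exact ⟨rfl, h3⟩
        · rintro ⟨rfl, _⟩; rfl
      · simp only [false_iff]
        rintro ⟨rfl, h4⟩; exact h3 h4
  | some m => simp

theorem newVal_unique {e s t k l : ℕ} (h1 : newVal e s = some k) (h2 : newVal e t = some l) :
    s = t ∧ k = l := by
  rw [newVal_eq_some] at h1 h2
  have key : ∀ {s t k l : ℕ}, Code.evaln (s + 1) (Denumerable.ofNat Code e) e = some k →
      Code.evaln t (Denumerable.ofNat Code e) e = none → t ≤ s := by
    intro s t k l h1 h2
    by_contra hlt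
    have := Code.evaln_mono (k₁ := s + 1) (k₂ := t) (by omega) (Option.mem_def.2 h1)
    rw [Option.mem_def, h2] at this
    exact absurd this (by simp)
  have hst : s = t := le_antisymm (key (k := l) (l := 0) h2.2.1 h1.1)
    (key (k := k) (l := 0) h1.2.1 h2.1)
  subst hst
  refine ⟨rfl, ?_⟩
  have := h1.2.1.symm.trans h2.2.1
  exact Option.some.inj this

theorem exists_newVal {e k : ℕ} (h : k ∈ Code.eval (Denumerable.ofNat Code e) e) (hk : 0 < k)
    (hk2 : k + 1 < NN e) : ∃ s, newVal e s = some k := by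
  classical
  obtain ⟨m, hm⟩ := Code.evaln_complete.1 h
  have hex : ∃ m, Code.evaln m (Denumerable.ofNat Code e) e ≠ none :=
    ⟨m, by rw [Option.mem_def.1 hm]; simp⟩
  have h1 := Nat.find_spec hex
  have hpos : Nat.find hex ≠ 0 := by
    intro h0
    rw [h0] at h1
    apply h1
    simp [Code.evaln]
  obtain ⟨s, hs⟩ := Nat.exists_eq_succ_of_ne_zero hpos
  refine ⟨s, newVal_eq_some.2 ⟨?_, ?_, hk, hk2⟩⟩
  · by_contra hne
    have := Nat.find_min' hex hne
    omega
  · rw [hs] at h1
    obtain ⟨l, hl⟩ := Option.ne_none_iff_exists'.1 h1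
    have h2 := Code.evaln_sound (Option.mem_def.2 hl)
    have := Part.mem_unique h h2
    rw [this]; exact hl

theorem newVal_sound {e s k : ℕ} (h : newVal e s = some k) :
    k ∈ Code.eval (Denumerable.ofNat Code e) e :=
  Code.evaln_sound (Option.mem_def.2 (newVal_eq_some.1 h).2.1)

/-! ### computability -/

theorem prim_pow : Primrec₂ (fun a b : ℕ => a ^ b) := Primrec₂.unpaired'.1 Nat.Primrec.pow

theorem prim_NN : Primrec NN := by
  unfold NN
  refine Primrec.succ.comp (prim_pow.comp (Primrec.const 2) (prim_pow.comp (Primrec.const 2) ?_))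
  exact Primrec.nat_add.comp Primrec.id (Primrec.const 2)

theorem prim_adm : Primrec₂ adm := by
  unfold adm
  refine Primrec.ite ?_ (Primrec.option_some.comp Primrec.snd) (Primrec.const none)
  refine PrimrecPred.and ?_ ?_
  · exact Primrec.nat_lt.comp (Primrec.const 0) Primrec.snd
  · exact Primrec.nat_lt.comp (Primrec.succ.comp Primrec.snd) (prim_NN.comp Primrec.fst)

theorem prim_newVal : Primrec₂ newVal := by
  unfold newVal
  have hc : Primrec (fun p : ℕ × ℕ => Denumerable.ofNat Code p.1) :=
    (Primrec.ofNat Code).comp Primrec.fst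
  have h1 : Primrec (fun p : ℕ × ℕ => Code.evaln p.2 (Denumerable.ofNat Code p.1) p.1) :=
    Code.primrec_evaln.comp (Primrec.pair (Primrec.pair Primrec.snd hc) Primrec.fst)
  have h2 : Primrec (fun p : ℕ × ℕ => Code.evaln (p.2 + 1) (Denumerable.ofNat Code p.1) p.1) :=
    Code.primrec_evaln.comp (Primrec.pair (Primrec.pair (Primrec.succ.comp Primrec.snd) hc)
      Primrec.fst)
  refine Primrec.option_casesOn (o := fun p : ℕ × ℕ =>
    Code.evaln p.2 (Denumerable.ofNat Code p.1) p.1)
    (f := fun p => (Code.evaln (p.2 + 1) (Denumerable.ofNat Code p.1) p.1).bind (adm p.1))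
    (g := fun _ _ => none) h1 ?_ (Primrec.const none).to₂
  refine Primrec.option_bind h2 ?_
  exact prim_adm.comp (Primrec.fst.comp Primrec.fst) Primrec.snd

theorem prim_par : Primrec par := by
  unfold par
  refine Primrec.nat_casesOn Primrec.id (Primrec.const _) ?_
  have hj : Primrec (fun p : ℕ × ℕ => p.2) := Primrec.snd
  have hj1 : Primrec (fun p : ℕ × ℕ => p.2.unpair.1) := Primrec.fst.comp (Primrec.unpair.comp hj)
  have hj2 : Primrec (fun p : ℕ × ℕ => p.2.unpair.2) := Primrec.snd.comp (Primrec.unpair.comp hj)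
  refine Primrec.option_casesOn (prim_newVal.comp hj1 hj2) ?_ ?_
  · refine Primrec.pair (Primrec.pair (Primrec.const _) ?_) (Primrec.const _)
    exact prim_natCast.comp (Primrec.succ.comp hj)
  · have hN : Primrec (fun p : (ℕ × ℕ) × ℕ => ((NN p.1.2.unpair.1 : ℕ) : ℤ)) :=
      prim_natCast.comp (prim_NN.comp (hj1.comp Primrec.fst))
    refine Primrec.pair (Primrec.pair hN ?_) (Primrec.pair hN ?_)
    · exact prim_int_neg.comp (prim_natCast.comp Primrec.snd)
    · exact prim_int_neg.comp (prim_natCast.comp (Primrec.succ.comp Primrec.snd))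

end Pool.Agent.H696R2.FR
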