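import Mathlib
import Pool.Agent.H696R2.FR.Data

set_option autoImplicit false

/-! The real number `τ` and the construction data. -/

namespace Pool.Agent.H696R2.FR

open Polynomial MeasureTheory
open Nat.Partrec (Code)

theorem par_zero : par 0 = ((4, -1), (-4, 3)) := rfl

theorem par_none {j : ℕ} (h : newVal j.unpair.1 j.unpair.2 = none) :
    par (j + 1) = ((1, ((j + 1 : ℕ) : ℤ)), (0, 1)) := by
  show (Option.casesOn (motive := fun _ => (ℤ × ℤ) × (ℤ × ℤ)) (newVal j.unpair.1 j.unpair.2) _ _) = _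
  rw [h]

theorem par_some {j k : ℕ} (h : newVal j.unpair.1 j.unpair.2 = some k) :
    par (j + 1) = (((NN j.unpair.1 : ℤ), -(k : ℤ)), ((NN j.unpair.1 : ℤ), -((k + 1 : ℕ) : ℤ))) := by
  show (Option.casesOn (motive := fun _ => (ℤ × ℤ) × (ℤ × ℤ)) (newVal j.unpair.1 j.unpair.2) _ _) = _
  rw [h]

/-- the three kinds of letters -/
theorem par_cases (i : ℕ) : (i = 0 ∧ par i = ((4, -1), (-4, 3))) ∨
    (∃ j, i = j + 1 ∧ par i = ((1, ((j + 1 : ℕ) : ℤ)), (0, 1))) ∨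
    (∃ j k, i = j + 1 ∧ newVal j.unpair.1 j.unpair.2 = some k ∧
      par i = (((NN j.unpair.1 : ℤ), -(k : ℤ)), ((NN j.unpair.1 : ℤ), -((k + 1 : ℕ) : ℤ)))) := by
  cases i with
  | zero => exact Or.inl ⟨rfl, rfl⟩
  | succ j =>
    cases h : newVal j.unpair.1 j.unpair.2 with
    | none => exact Or.inr (Or.inl ⟨j, rfl, par_none h⟩)
    | some k => exact Or.inr (Or.inr ⟨j, k, rfl, h, par_some h⟩)

theorem NN_odd (e : ℕ) : ∃ m : ℕ, NN e = 4 * m + 1 := by
  refine ⟨2 ^ (2 ^ (e + 2) - 2), ?_⟩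
  unfold NN
  have h1 : 2 ≤ 2 ^ (e + 2) := by
    calc 2 = 2 ^ 1 := by norm_num
      _ ≤ 2 ^ (e + 2) := Nat.pow_le_pow_right (by norm_num) (by omega)
  have h2 : 2 ^ (2 ^ (e + 2)) = 4 * 2 ^ (2 ^ (e + 2) - 2) := by
    conv_lhs => rw [show 2 ^ (e + 2) = 2 + (2 ^ (e + 2) - 2) by omega]
    rw [pow_add]; norm_num
  rw [h2]

theorem NN_coprime {e f : ℕ} (h : e ≠ f) : Nat.Coprime (NN e) (NN f) := by
  have := Nat.coprime_fermatNumber_fermatNumber (m := e + 2) (n := f + 2) (by omega)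
  exact this

theorem NN_ge (e : ℕ) : 2 ^ (e + 4) ≤ NN e := by
  unfold NN
  have h : e + 4 ≤ 2 ^ (e + 2) := by
    induction e with
    | zero => norm_num
    | succ e ih =>
      have : 2 ^ (e + 1 + 2) = 2 * 2 ^ (e + 2) := by rw [show e + 1 + 2 = (e + 2) + 1 by ring, pow_succ]; ring
      omega
  have := Nat.pow_le_pow_right (n := 2) (by norm_num) h
  omega

theorem par_a_ne (i : ℕ) : (par i).1.1 ≠ 0 := by
  rcases par_cases i with ⟨rfl, h⟩ | ⟨j, rfl, h⟩ | ⟨j, k, rfl, hk, h⟩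
  · rw [h]; norm_num
  · rw [h]; norm_num
  · rw [h]
    have : 0 < NN j.unpair.1 := by unfold NN; positivity
    show ((NN j.unpair.1 : ℕ) : ℤ) ≠ 0
    omega

theorem par_self (i : ℕ) : (par i).1.1 * (par i).2.2 - (par i).2.1 * (par i).1.2 ≠ 0 := by
  rcases par_cases i with ⟨rfl, h⟩ | ⟨j, rfl, h⟩ | ⟨j, k, rfl, hk, h⟩
  · rw [h]; norm_num
  · rw [h]; norm_num
  · rw [h]
    have : 0 < NN j.unpair.1 := by unfold NN; positivity
    show ((NN j.unpair.1 : ℕ) : ℤ) * (-((k + 1 : ℕ) : ℤ)) - ((NN j.unpair.1 : ℕ) : ℤ) * (-(k : ℤ)) ≠ 0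
    push_cast
    have h2 : ((NN j.unpair.1 : ℕ) : ℤ) * (-((k : ℤ) + 1)) - ((NN j.unpair.1 : ℕ) : ℤ) * (-(k : ℤ)) =
      - ((NN j.unpair.1 : ℕ) : ℤ) := by ring
    rw [h2]
    omega

theorem coprime_aux {N N' k m : ℕ} (hc : Nat.Coprime N N') (hk : 0 < k) (hkN : k < N) :
    N * m ≠ N' * k := by
  intro h
  have h1 : N ∣ N' * k := ⟨m, h.symm⟩
  have h2 : N ∣ k := hc.dvd_of_dvd_mul_left h1
  have := Nat.le_of_dvd hk h2
  omega

theorem par_cross (i j : ℕ) (hij : i ≠ j) :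
    (par i).1.1 * (par j).1.2 - (par j).1.1 * (par i).1.2 ≠ 0 ∧
    (par i).1.1 * (par j).2.2 - (par j).2.1 * (par i).1.2 ≠ 0 := by
  rcases par_cases i with ⟨rfl, h⟩ | ⟨a, rfl, h⟩ | ⟨a, k, rfl, hk, h⟩
  · rcases par_cases j with ⟨rfl, h'⟩ | ⟨b, rfl, h'⟩ | ⟨b, l, rfl, hl, h'⟩
    · exact absurd rfl hij
    · rw [h, h']
      constructor
      · show (4 : ℤ) * ((b + 1 : ℕ) : ℤ) - 1 * (-1) ≠ 0
        omega
      · show (4 : ℤ) * 1 - 0 * (-1) ≠ 0
        norm_num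
    · rw [h, h']
      obtain ⟨m, hm⟩ := NN_odd b.unpair.1
      constructor
      · show (4 : ℤ) * (-(l : ℤ)) - ((NN b.unpair.1 : ℕ) : ℤ) * (-1) ≠ 0
        rw [hm]; omega
      · show (4 : ℤ) * (-((l + 1 : ℕ) : ℤ)) - ((NN b.unpair.1 : ℕ) : ℤ) * (-1) ≠ 0
        rw [hm]; omega
  · rcases par_cases j with ⟨rfl, h'⟩ | ⟨b, rfl, h'⟩ | ⟨b, l, rfl, hl, h'⟩
    · rw [h, h']
      constructor
      · show (1 : ℤ) * (-1) - 4 * ((a + 1 : ℕ) : ℤ) ≠ 0
        omega
      · show (1 : ℤ) * 3 - (-4) * ((a + 1 : ℕ) : ℤ) ≠ 0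
        omega
    · rw [h, h']
      constructor
      · show (1 : ℤ) * ((b + 1 : ℕ) : ℤ) - 1 * ((a + 1 : ℕ) : ℤ) ≠ 0
        omega
      · show (1 : ℤ) * 1 - 0 * ((a + 1 : ℕ) : ℤ) ≠ 0
        omega
    · rw [h, h']
      have hN : 0 < NN b.unpair.1 := by unfold NN; positivity
      constructor
      · show (1 : ℤ) * (-(l : ℤ)) - ((NN b.unpair.1 : ℕ) : ℤ) * ((a + 1 : ℕ) : ℤ) ≠ 0
        have h1 : (0 : ℤ) < ((NN b.unpair.1 : ℕ) : ℤ) * ((a + 1 : ℕ) : ℤ) := by positivity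
        omega
      · show (1 : ℤ) * (-((l + 1 : ℕ) : ℤ)) - ((NN b.unpair.1 : ℕ) : ℤ) * ((a + 1 : ℕ) : ℤ) ≠ 0
        have h1 : (0 : ℤ) < ((NN b.unpair.1 : ℕ) : ℤ) * ((a + 1 : ℕ) : ℤ) := by positivity
        omega
  · have hk' := newVal_eq_some.1 hk
    have hN : 0 < NN a.unpair.1 := by unfold NN; positivity
    rcases par_cases j with ⟨rfl, h'⟩ | ⟨b, rfl, h'⟩ | ⟨b, l, rfl, hl, h'⟩
    · rw [h, h']
      obtain ⟨m, hm⟩ := NN_odd a.unpair.1
      constructor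
      · show ((NN a.unpair.1 : ℕ) : ℤ) * (-1) - 4 * (-(k : ℤ)) ≠ 0
        rw [hm]; omega
      · show ((NN a.unpair.1 : ℕ) : ℤ) * 3 - (-4) * (-(k : ℤ)) ≠ 0
        rw [hm]; omega
    · rw [h, h']
      constructor
      · show ((NN a.unpair.1 : ℕ) : ℤ) * ((b + 1 : ℕ) : ℤ) - 1 * (-(k : ℤ)) ≠ 0
        have h1 : (0 : ℤ) < ((NN a.unpair.1 : ℕ) : ℤ) * ((b + 1 : ℕ) : ℤ) := by positivity
        omega
      · show ((NN a.unpair.1 : ℕ) : ℤ) * 1 - 0 * (-(k : ℤ)) ≠ 0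
        omega
    · rw [h, h']
      have hl' := newVal_eq_some.1 hl
      have hne : a.unpair.1 ≠ b.unpair.1 := by
        intro he
        apply hij
        rw [← he] at hl
        have := (newVal_unique hk hl).1
        have h3 : a = b := by
          rw [← Nat.pair_unpair a, ← Nat.pair_unpair b, he, this]
        rw [h3]
      have hc := NN_coprime hne
      constructor
      · show ((NN a.unpair.1 : ℕ) : ℤ) * (-(l : ℤ)) - ((NN b.unpair.1 : ℕ) : ℤ) * (-(k : ℤ)) ≠ 0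
        have := coprime_aux (m := l) hc hk'.2.2.1 (by omega)
        intro h0
        apply this
        have h1 : ((NN a.unpair.1 : ℕ) : ℤ) * (l : ℤ) = ((NN b.unpair.1 : ℕ) : ℤ) * (k : ℤ) := by
          linarith
        exact_mod_cast h1
      · show ((NN a.unpair.1 : ℕ) : ℤ) * (-((l + 1 : ℕ) : ℤ)) -
          ((NN b.unpair.1 : ℕ) : ℤ) * (-(k : ℤ)) ≠ 0
        have := coprime_aux (m := l + 1) hc hk'.2.2.1 (by omega)
        intro h0
        apply this
        have h1 : ((NN a.unpair.1 : ℕ) : ℤ) * ((l + 1 : ℕ) : ℤ) =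
          ((NN b.unpair.1 : ℕ) : ℤ) * (k : ℤ) := by linarith
        exact_mod_cast h1

/-- the polynomials -/
noncomputable def VV (i : ℕ) : ℤ[X] :=
  (C (par i).1.1 * X + C (par i).1.2) * (C (par i).2.1 * X + C (par i).2.2)

/-- their private roots -/
noncomputable def rr (i : ℕ) : ℚ := - ((par i).1.2 : ℚ) / ((par i).1.1 : ℚ)

theorem VV_map (i : ℕ) : (VV i).map (Int.castRingHom ℚ) =
    (C ((par i).1.1 : ℚ) * X + C ((par i).1.2 : ℚ)) *
      (C ((par i).2.1 : ℚ) * X + C ((par i).2.2 : ℚ)) := by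
  simp [VV]

theorem VV_nonroot (i j : ℕ) (hij : i ≠ j) :
    ((VV j).map (Int.castRingHom ℚ)).eval (rr i) ≠ 0 := by
  rw [VV_map]
  simp only [eval_mul, eval_add, eval_C, eval_X]
  have ha : ((par i).1.1 : ℚ) ≠ 0 := by exact_mod_cast par_a_ne i
  obtain ⟨h1, h2⟩ := par_cross i j hij
  refine mul_ne_zero ?_ ?_
  · intro h
    apply h1
    unfold rr at h
    field_simp at h
    have h3 : ((par i).1.1 : ℚ) * ((par j).1.2 : ℚ) - ((par j).1.1 : ℚ) * ((par i).1.2 : ℚ) = 0 := by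
      linarith
    exact_mod_cast h3
  · intro h
    apply h2
    unfold rr at h
    field_simp at h
    have h3 : ((par i).1.1 : ℚ) * ((par j).2.2 : ℚ) - ((par j).2.1 : ℚ) * ((par i).1.2 : ℚ) = 0 := by
      linarith
    exact_mod_cast h3

theorem VV_mult (i : ℕ) : rootMultiplicity (rr i) ((VV i).map (Int.castRingHom ℚ)) = 1 := by
  rw [VV_map]
  have ha : ((par i).1.1 : ℚ) ≠ 0 := by exact_mod_cast par_a_ne i
  have h1 : (C ((par i).1.1 : ℚ) * X + C ((par i).1.2 : ℚ)) = C ((par i).1.1 : ℚ) * (X - C (rr i)) := by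
    rw [mul_sub, ← C_mul]
    have : ((par i).1.1 : ℚ) * rr i = - ((par i).1.2 : ℚ) := by
      unfold rr; field_simp
    rw [this, C_neg]; ring
  have h2 : (C ((par i).2.1 : ℚ) * X + C ((par i).2.2 : ℚ)).eval (rr i) ≠ 0 := by
    simp only [eval_add, eval_mul, eval_C, eval_X]
    intro h
    apply par_self i
    unfold rr at h
    field_simp at h
    have h3 : ((par i).1.1 : ℚ) * ((par i).2.2 : ℚ) - ((par i).2.1 : ℚ) * ((par i).1.2 : ℚ) = 0 := by
      linarith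
    exact_mod_cast h3
  have h3 : C ((par i).1.1 : ℚ) ≠ 0 := C_ne_zero.2 ha
  have h4 : (X - C (rr i)) ≠ 0 := X_sub_C_ne_zero _
  have h5 : (C ((par i).2.1 : ℚ) * X + C ((par i).2.2 : ℚ)) ≠ 0 := by
    intro h; rw [h] at h2; simp at h2
  rw [h1, rootMultiplicity_mul (mul_ne_zero (mul_ne_zero h3 h4) h5),
    rootMultiplicity_mul (mul_ne_zero h3 h4), rootMultiplicity_C, rootMultiplicity_X_sub_C_self,
    rootMultiplicity_eq_zero h2]

theorem VV_deg (i : ℕ) : (VV i).natDegree ≤ 2 := by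
  unfold VV
  refine natDegree_mul_le.trans ?_
  have h1 : (C (par i).1.1 * X + C (par i).1.2 : ℤ[X]).natDegree ≤ 1 := natDegree_linear_le
  have h2 : (C (par i).2.1 * X + C (par i).2.2 : ℤ[X]).natDegree ≤ 1 := natDegree_linear_le
  omega

/-- the forbidden interval of program `e` -/
def Bad (e : ℕ) : Set ℝ :=
  {x | ∃ k : ℕ, k ∈ Code.eval (Denumerable.ofNat Code e) e ∧
    (k : ℝ) / NN e ≤ x ∧ x ≤ ((k : ℝ) + 1) / NN e}

theorem Bad_vol (e : ℕ) : volume (Bad e) ≤ (2⁻¹ : ENNReal) ^ (e + 4) := by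
  by_cases h : (Code.eval (Denumerable.ofNat Code e) e).Dom
  · have hsub : Bad e ⊆ Set.Icc (((Code.eval (Denumerable.ofNat Code e) e).get h : ℝ) / NN e)
        ((((Code.eval (Denumerable.ofNat Code e) e).get h : ℝ) + 1) / NN e) := by
      rintro x ⟨k, hk, h1, h2⟩
      have : (Code.eval (Denumerable.ofNat Code e) e).get h = k := Part.get_eq_of_mem hk h
      rw [this]
      exact ⟨h1, h2⟩
    refine (measure_mono hsub).trans ?_
    rw [Real.volume_Icc]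
    have hN : (0 : ℝ) < NN e := by
      have : 0 < NN e := by unfold NN; positivity
      exact_mod_cast this
    have h3 : (((Code.eval (Denumerable.ofNat Code e) e).get h : ℝ) + 1) / NN e -
        ((Code.eval (Denumerable.ofNat Code e) e).get h : ℝ) / NN e = 1 / NN e := by
      field_simp; ring
    rw [h3]
    have h4 : (1 : ℝ) / NN e ≤ (2⁻¹ : ℝ) ^ (e + 4) := by
      rw [inv_pow, ← one_div]
      apply one_div_le_one_div_of_le (by positivity)
      exact_mod_cast NN_ge e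
    refine (ENNReal.ofReal_le_ofReal h4).trans ?_
    rw [ENNReal.ofReal_pow (by norm_num)]
    rw [ENNReal.ofReal_inv_of_pos (by norm_num)]
    simp
  · have : Bad e = ∅ := by
      ext x
      simp only [Bad, Set.mem_setOf_eq, Set.mem_empty_iff_false, iff_false]
      rintro ⟨k, hk, _⟩
      exact h (Part.dom_iff_mem.2 ⟨k, hk⟩)
    rw [this]; simp

theorem exists_tau : ∃ τ : ℝ, 1 / 4 < τ ∧ τ < 3 / 4 ∧ Transcendental ℤ τ ∧ ∀ e, τ ∉ Bad e := by
  by_contra hcon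
  push Not at hcon
  have hsub : Set.Ioo (1 / 4 : ℝ) (3 / 4) ⊆ (⋃ e, Bad e) ∪ {x | IsAlgebraic ℤ x} := by
    rintro x ⟨h1, h2⟩
    by_cases h3 : IsAlgebraic ℤ x
    · exact Or.inr h3
    · left
      obtain ⟨e, he⟩ := hcon x h1 h2 h3
      exact Set.mem_iUnion.2 ⟨e, he⟩
  have h1 := (measure_mono hsub).trans (measure_union_le (μ := volume) _ _)
  have h2 : volume {x : ℝ | IsAlgebraic ℤ x} = 0 :=
    (Algebraic.countable ℤ ℝ).measure_zero _
  rw [h2, add_zero, Real.volume_Ioo] at h1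
  have h3 : volume (⋃ e, Bad e) ≤ ∑' e : ℕ, (2⁻¹ : ENNReal) ^ (e + 4) :=
    (measure_iUnion_le _).trans (ENNReal.tsum_le_tsum Bad_vol)
  have h4 : ∑' e : ℕ, (2⁻¹ : ENNReal) ^ (e + 4) = (2⁻¹ : ENNReal) ^ 4 * 2 := by
    simp only [pow_add]
    rw [ENNReal.tsum_mul_right, ENNReal.tsum_geometric_two, mul_comm]
  rw [h4] at h3
  have h5 := h1.trans h3
  have h6 : (3 / 4 - 1 / 4 : ℝ) = 2⁻¹ := by norm_num
  rw [h6, ENNReal.ofReal_inv_of_pos (by norm_num)] at h5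
  have h7 : ENNReal.ofReal 2 = 2 := by simp
  rw [h7] at h5
  have h8 : (2⁻¹ : ENNReal) ^ 4 * 2 = (2⁻¹ : ENNReal) ^ 3 := by
    rw [pow_succ, mul_assoc, ENNReal.inv_mul_cancel (by norm_num) (by norm_num), mul_one]
  rw [h8] at h5
  have h9 : (2⁻¹ : ENNReal) ^ 3 < 2⁻¹ := by
    rw [← ENNReal.inv_pow]
    apply ENNReal.inv_lt_inv.2
    norm_num
  exact absurd h5 (not_le.2 h9)

/-- the special real number -/
noncomputable def tau : ℝ := exists_tau.choose

theorem tau_gt : 1 / 4 < tau := exists_tau.choose_spec.1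
theorem tau_lt : tau < 3 / 4 := exists_tau.choose_spec.2.1
theorem tau_trans : Transcendental ℤ tau := exists_tau.choose_spec.2.2.1
theorem tau_bad (e : ℕ) : tau ∉ Bad e := exists_tau.choose_spec.2.2.2 e

theorem VV_eval (i : ℕ) (x : ℝ) : aeval x (VV i) =
    (((par i).1.1 : ℝ) * x + ((par i).1.2 : ℝ)) * (((par i).2.1 : ℝ) * x + ((par i).2.2 : ℝ)) := by
  simp [VV]

theorem VV_pos (i : ℕ) : 0 < aeval tau (VV i) := by
  rw [VV_eval]
  have h1 := tau_gt
  have h2 := tau_lt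
  rcases par_cases i with ⟨rfl, h⟩ | ⟨j, rfl, h⟩ | ⟨j, k, rfl, hk, h⟩
  · rw [h]
    push_cast
    apply mul_pos <;> linarith
  · rw [h]
    push_cast
    have : (0 : ℝ) ≤ j := Nat.cast_nonneg j
    apply mul_pos <;> linarith
  · rw [h]
    push_cast
    have hN : (0 : ℝ) < NN j.unpair.1 := by
      have : 0 < NN j.unpair.1 := by unfold NN; positivity
      exact_mod_cast this
    have hb := tau_bad j.unpair.1
    have hks := newVal_sound hk
    by_cases h3 : (k : ℝ) / NN j.unpair.1 ≤ tau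
    · have h4 : ((k : ℝ) + 1) / NN j.unpair.1 < tau := by
        by_contra h5
        exact hb ⟨k, hks, h3, not_lt.1 h5⟩
      rw [div_lt_iff₀ hN] at h4
      apply mul_pos <;> nlinarith
    · rw [not_le, lt_div_iff₀ hN] at h3
      apply mul_pos_of_neg_of_neg <;> nlinarith

/-- the construction data -/
noncomputable def DD : Dat where
  V := VV
  τ := tau
  r := rr
  trans := tau_trans
  mult := VV_mult
  nonroot := VV_nonroot
  pos := VV_pos
  deg := VV_deg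

end Pool.Agent.H696R2.FR
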