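import Mathlib
import Pool.Agent.H696R2.FR.Real

set_option autoImplicit false

/-! Computability of the zero test. -/

namespace Pool.Agent.H696R2.FR

open Polynomial Dat

/-- count -/
def cnt (j : ℕ) (w : List ℕ) : ℕ := w.foldr (fun x n => if x = j then n + 1 else n) 0

theorem cnt_eq (j : ℕ) (w : List ℕ) : cnt j w = w.count j := by
  induction w with
  | nil => rfl
  | cons x w ih =>
    rw [List.count_cons, ← ih]
    show (if x = j then cnt j w + 1 else cnt j w) = _
    by_cases h : x = j <;> simp [h]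

theorem prim_cnt : Primrec₂ cnt := by
  unfold cnt
  refine Primrec.list_foldr (f := fun p : ℕ × List ℕ => p.2) (g := fun _ => 0)
    (h := fun p q => if q.1 = p.1 then q.2 + 1 else q.2) Primrec.snd (Primrec.const 0) ?_
  refine Primrec.ite ?_ ?_ ?_
  · exact Primrec.eq.comp (Primrec.fst.comp Primrec.snd) (Primrec.fst.comp Primrec.fst)
  · exact Primrec.succ.comp (Primrec.snd.comp Primrec.snd)
  · exact Primrec.snd.comp Primrec.snd

/-- equality of odd parts -/
def same (w w' : List ℕ) : Bool :=
  (w ++ w').foldr (fun j b => (decide (j = 0) || decide (cnt j w % 2 = cnt j w' % 2)) && b) true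

theorem foldr_and {α : Type} (f : α → Bool) (l : List α) :
    l.foldr (fun j b => f j && b) true = true ↔ ∀ j ∈ l, f j = true := by
  induction l with
  | nil => simp
  | cons a l ih => simp [ih]

theorem same_iff (w w' : List ℕ) : same w w' = true ↔ odd w = odd w' := by
  unfold same
  rw [foldr_and (fun j => decide (j = 0) || decide (cnt j w % 2 = cnt j w' % 2))]
  simp only [Bool.or_eq_true, decide_eq_true_eq, cnt_eq]
  constructor
  · intro h
    ext i
    rw [mem_odd, mem_odd]
    by_cases hi : i + 1 ∈ w ++ w'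
    · rcases h _ hi with h1 | h1
      · omega
      · rw [h1]
    · rw [List.mem_append, not_or] at hi
      rw [List.count_eq_zero_of_not_mem hi.1, List.count_eq_zero_of_not_mem hi.2]
  · intro h j _
    cases j with
    | zero => exact Or.inl rfl
    | succ i =>
      right
      have h1 := mem_odd w i
      have h2 := mem_odd w' i
      rw [h] at h1
      have h3 : w.count (i + 1) % 2 = 1 ↔ w'.count (i + 1) % 2 = 1 := h1.symm.trans h2
      have h4 := Nat.mod_two_eq_zero_or_one (w.count (i + 1))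
      have h5 := Nat.mod_two_eq_zero_or_one (w'.count (i + 1))
      omega

theorem prim_same : Primrec₂ same := by
  unfold same
  refine Primrec.list_foldr (f := fun p : List ℕ × List ℕ => p.1 ++ p.2) (g := fun _ => true)
    (h := fun p q => (decide (q.1 = 0) || decide (cnt q.1 p.1 % 2 = cnt q.1 p.2 % 2)) && q.2)
    (Primrec.list_append.comp Primrec.fst Primrec.snd) (Primrec.const true) ?_
  have hj : Primrec (fun r : (List ℕ × List ℕ) × (ℕ × Bool) => r.2.1) :=
    Primrec.fst.comp Primrec.snd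
  have h1 : Primrec (fun r : (List ℕ × List ℕ) × (ℕ × Bool) => cnt r.2.1 r.1.1 % 2) :=
    Primrec.nat_mod.comp (prim_cnt.comp hj (Primrec.fst.comp Primrec.fst)) (Primrec.const 2)
  have h2 : Primrec (fun r : (List ℕ × List ℕ) × (ℕ × Bool) => cnt r.2.1 r.1.2 % 2) :=
    Primrec.nat_mod.comp (prim_cnt.comp hj (Primrec.snd.comp Primrec.fst)) (Primrec.const 2)
  refine Primrec.and.comp (Primrec.or.comp ?_ ?_) (Primrec.snd.comp Primrec.snd)
  · exact (Primrec.eq.comp hj (Primrec.const 0)).decide
  · exact (Primrec.eq.comp h1 h2).decide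

/-- integer value of the polynomial with parameters `par i` -/
def vz (i : ℕ) (N : ℤ) : ℤ :=
  ((par i).1.1 * N + (par i).1.2) * ((par i).2.1 * N + (par i).2.2)

theorem vz_eq (i : ℕ) (N : ℤ) : vz i N = (VV i).eval N := by
  simp [vz, VV]

theorem prim_vz : Primrec₂ vz := by
  unfold vz
  have hp : Primrec (fun r : ℕ × ℤ => par r.1) := prim_par.comp Primrec.fst
  have h11 := Primrec.fst.comp (Primrec.fst.comp hp)
  have h12 := Primrec.snd.comp (Primrec.fst.comp hp)
  have h21 := Primrec.fst.comp (Primrec.snd.comp hp)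
  have h22 := Primrec.snd.comp (Primrec.snd.comp hp)
  exact prim_int_mul.comp (prim_int_add.comp (prim_int_mul.comp h11 Primrec.snd) h12)
    (prim_int_add.comp (prim_int_mul.comp h21 Primrec.snd) h22)

/-- one step of the evaluation of the polynomial factor -/
def fac (N : ℤ) (j : ℕ) (w : List ℕ) : ℤ :=
  if j = 0 then N else (if cnt j w % 2 = 1 then vz (j - 1) N else 1)

/-- evaluation of the polynomial factor -/
def pst (N : ℤ) (w : List ℕ) : List ℕ × ℤ :=
  w.foldr (fun j st => (j :: st.1, fac N j st.1 * st.2)) ([], 1)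

theorem pst_eq (N : ℤ) (w : List ℕ) : pst N w = (w, (DD.P w).eval N) := by
  induction w with
  | nil => simp [pst, P]
  | cons j w ih =>
    show (j :: (pst N w).1, fac N j (pst N w).1 * (pst N w).2) = _
    rw [ih]
    congr 1
    show fac N j w * (DD.P w).eval N = (DD.P (j :: w)).eval N
    cases j with
    | zero => simp [fac, P]
    | succ i =>
      have h1 := mem_odd w i
      unfold fac
      rw [if_neg (by omega), cnt_eq, vz_eq, Nat.add_sub_cancel]
      by_cases hi : i ∈ odd w
      · rw [if_pos (h1.1 hi)]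
        simp only [P, hi, if_true, eval_mul]
        rfl
      · rw [if_neg (fun h => hi (h1.2 h))]
        simp only [P, hi, if_false, one_mul]

theorem prim_fac : Primrec (fun r : (ℤ × ℕ) × List ℕ => fac r.1.1 r.1.2 r.2) := by
  unfold fac
  have hj : Primrec (fun r : (ℤ × ℕ) × List ℕ => r.1.2) := Primrec.snd.comp Primrec.fst
  have hN : Primrec (fun r : (ℤ × ℕ) × List ℕ => r.1.1) := Primrec.fst.comp Primrec.fst
  refine Primrec.ite (Primrec.eq.comp hj (Primrec.const 0)) hN ?_
  refine Primrec.ite ?_ ?_ (Primrec.const 1)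
  · exact Primrec.eq.comp (Primrec.nat_mod.comp (prim_cnt.comp hj Primrec.snd) (Primrec.const 2))
      (Primrec.const 1)
  · exact prim_vz.comp (Primrec.nat_sub.comp hj (Primrec.const 1)) hN

theorem prim_pst : Primrec₂ pst := by
  unfold pst
  refine Primrec.list_foldr (f := fun p : ℤ × List ℕ => p.2) (g := fun _ => (([] : List ℕ), (1 : ℤ)))
    (h := fun p q => (q.1 :: q.2.1, fac p.1 q.1 q.2.1 * q.2.2)) Primrec.snd (Primrec.const _) ?_
  have hj : Primrec (fun r : (ℤ × List ℕ) × (ℕ × (List ℕ × ℤ)) => r.2.1) :=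
    Primrec.fst.comp Primrec.snd
  have hw : Primrec (fun r : (ℤ × List ℕ) × (ℕ × (List ℕ × ℤ)) => r.2.2.1) :=
    Primrec.fst.comp (Primrec.snd.comp Primrec.snd)
  have hz : Primrec (fun r : (ℤ × List ℕ) × (ℕ × (List ℕ × ℤ)) => r.2.2.2) :=
    Primrec.snd.comp (Primrec.snd.comp Primrec.snd)
  have hN : Primrec (fun r : (ℤ × List ℕ) × (ℕ × (List ℕ × ℤ)) => r.1.1) :=
    Primrec.fst.comp Primrec.fst
  exact Primrec.pair (Primrec.list_cons.comp hj hw)
    (prim_int_mul.comp (prim_fac.comp (Primrec.pair (Primrec.pair hN hj) hw)) hz)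

/-- value at `N` of the coefficient of the class of `w` -/
def sumN (l : FS) (w : List ℕ) (N : ℤ) : ℤ :=
  l.foldr (fun p s => (if same p.2 w = true then p.1 * (pst N p.2).2 else 0) + s) 0

theorem sumN_eq (l : FS) (w : List ℕ) (N : ℤ) : sumN l w N =
    (l.map (fun p => if odd p.2 = odd w then p.1 * (DD.P p.2).eval N else 0)).sum := by
  induction l with
  | nil => rfl
  | cons p l ih =>
    show (if same p.2 w = true then p.1 * (pst N p.2).2 else 0) + sumN l w N = _
    rw [ih, List.map_cons, List.sum_cons, pst_eq]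
    congr 1
    by_cases h : odd p.2 = odd w
    · rw [if_pos h, if_pos ((same_iff _ _).2 h)]
    · rw [if_neg h, if_neg (fun h' => h ((same_iff _ _).1 h'))]

theorem prim_sumN : Primrec (fun r : (FS × List ℕ) × ℤ => sumN r.1.1 r.1.2 r.2) := by
  unfold sumN
  refine Primrec.list_foldr (f := fun r : (FS × List ℕ) × ℤ => r.1.1) (g := fun _ => (0 : ℤ))
    (h := fun r q => (if same q.1.2 r.1.2 = true then q.1.1 * (pst r.2 q.1.2).2 else 0) + q.2)
    (Primrec.fst.comp Primrec.fst) (Primrec.const _) ?_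
  have hc : Primrec (fun r : ((FS × List ℕ) × ℤ) × ((ℤ × List ℕ) × ℤ) => r.2.1.1) :=
    Primrec.fst.comp (Primrec.fst.comp Primrec.snd)
  have hw : Primrec (fun r : ((FS × List ℕ) × ℤ) × ((ℤ × List ℕ) × ℤ) => r.2.1.2) :=
    Primrec.snd.comp (Primrec.fst.comp Primrec.snd)
  have hs : Primrec (fun r : ((FS × List ℕ) × ℤ) × ((ℤ × List ℕ) × ℤ) => r.2.2) :=
    Primrec.snd.comp Primrec.snd
  have hw' : Primrec (fun r : ((FS × List ℕ) × ℤ) × ((ℤ × List ℕ) × ℤ) => r.1.1.2) :=
    Primrec.snd.comp (Primrec.fst.comp Primrec.fst)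
  have hN : Primrec (fun r : ((FS × List ℕ) × ℤ) × ((ℤ × List ℕ) × ℤ) => r.1.2) :=
    Primrec.snd.comp Primrec.fst
  refine prim_int_add.comp (Primrec.ite ?_ ?_ (Primrec.const 0)) hs
  · exact Primrec.eq.comp (prim_same.comp hw hw') (Primrec.const true)
  · exact prim_int_mul.comp hc (Primrec.snd.comp (prim_pst.comp hN hw))

/-- bound -/
def bnd (l : FS) : ℕ := 2 * (l.foldr (fun p n => p.2.length + n) 0) + 1

theorem bnd_eq (l : FS) : bnd l = 2 * len l + 1 := by
  have : l.foldr (fun p n => p.2.length + n) 0 = len l := by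
    induction l with
    | nil => rfl
    | cons p l ih => simp only [List.foldr_cons, ih, len, List.map_cons, List.sum_cons]
  unfold bnd
  rw [this]

theorem prim_bnd : Primrec bnd := by
  unfold bnd
  refine Primrec.succ.comp (Primrec.nat_mul.comp (Primrec.const 2) ?_)
  refine Primrec.list_foldr (f := fun l : FS => l) (g := fun _ => (0 : ℕ))
    (h := fun _ q => q.1.2.length + q.2) Primrec.id (Primrec.const _) ?_
  exact Primrec.nat_add.comp
    (Primrec.list_length.comp (Primrec.snd.comp (Primrec.fst.comp Primrec.snd)))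
    (Primrec.snd.comp Primrec.snd)

/-- inner test -/
def zt1 (l : FS) (w : List ℕ) : Bool :=
  (List.range (bnd l)).foldr (fun (N : ℕ) b => decide (sumN l w (N : ℤ) = 0) && b) true

/-- the zero test -/
def zt (l : FS) : Bool := l.foldr (fun q b => zt1 l q.2 && b) true

theorem zt_iff (l : FS) : zt l = true ↔ DD.nu l = 0 := by
  unfold zt
  rw [foldr_and (fun q : ℤ × List ℕ => zt1 l q.2), nu_eq_zero_iff]
  refine forall₂_congr fun q _ => ?_
  unfold zt1
  rw [foldr_and (fun N : ℕ => decide (sumN l q.2 (N : ℤ) = 0)), bnd_eq]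
  simp only [List.mem_range, decide_eq_true_eq, sumN_eq]

theorem prim_zt1 : Primrec₂ zt1 := by
  unfold zt1
  refine Primrec.list_foldr (f := fun p : FS × List ℕ => List.range (bnd p.1)) (g := fun _ => true)
    (h := fun p q => decide (sumN p.1 p.2 (q.1 : ℤ) = 0) && q.2)
    (Primrec.list_range.comp (prim_bnd.comp Primrec.fst)) (Primrec.const true) ?_
  refine Primrec.and.comp ?_ (Primrec.snd.comp Primrec.snd)
  have h1 : Primrec (fun r : (FS × List ℕ) × (ℕ × Bool) => sumN r.1.1 r.1.2 (r.2.1 : ℤ)) :=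
    prim_sumN.comp (Primrec.pair Primrec.fst (prim_natCast.comp (Primrec.fst.comp Primrec.snd)))
  exact (Primrec.eq.comp h1 (Primrec.const 0)).decide

theorem prim_zt : Primrec zt := by
  unfold zt
  refine Primrec.list_foldr (f := fun l : FS => l) (g := fun _ => true)
    (h := fun l q => zt1 l q.1.2 && q.2) Primrec.id (Primrec.const true) ?_
  exact Primrec.and.comp
    (prim_zt1.comp Primrec.fst (Primrec.snd.comp (Primrec.fst.comp Primrec.snd)))
    (Primrec.snd.comp Primrec.snd)

theorem prim_mulF : Primrec₂ mulF := by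
  unfold mulF
  refine Primrec.list_flatMap Primrec.fst ?_
  refine Primrec.list_map (Primrec.snd.comp Primrec.fst) ?_
  have h1 : Primrec (fun q : ((FS × FS) × (ℤ × List ℕ)) × (ℤ × List ℕ) => q.1.2.1) :=
    Primrec.fst.comp (Primrec.snd.comp Primrec.fst)
  have h2 : Primrec (fun q : ((FS × FS) × (ℤ × List ℕ)) × (ℤ × List ℕ) => q.2.1) :=
    Primrec.fst.comp Primrec.snd
  have h3 : Primrec (fun q : ((FS × FS) × (ℤ × List ℕ)) × (ℤ × List ℕ) => q.1.2.2) :=
    Primrec.snd.comp (Primrec.snd.comp Primrec.fst)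
  have h4 : Primrec (fun q : ((FS × FS) × (ℤ × List ℕ)) × (ℤ × List ℕ) => q.2.2) :=
    Primrec.snd.comp Primrec.snd
  exact Primrec.pair (prim_int_mul.comp h1 h2) (Primrec.list_append.comp h3 h4)

theorem prim_negF : Primrec negF := by
  unfold negF
  refine Primrec.list_map Primrec.id ?_
  exact Primrec.pair (prim_int_neg.comp (Primrec.fst.comp Primrec.snd))
    (Primrec.snd.comp Primrec.snd)

theorem prim_addF : Primrec₂ addF := Primrec.list_append

/-- the field -/
theorem exists_FF : ∃ F : Subfield ℝ, (∀ a, DD.nu a ∈ F) ∧ ∃ e : ℕ ≃ F,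
      Computable₂ (fun a b : ℕ => e.symm (e a + e b)) ∧
      Computable₂ (fun a b : ℕ => e.symm (e a * e b)) ∧
      Computable (fun a : ℕ => e.symm (-(e a))) ∧
      Computable (fun a : ℕ => e.symm ((e a)⁻¹)) :=
  exists_frac_presentation DD.nu addF mulF negF [] [(1, [])] DD.nu_add DD.nu_mul DD.nu_neg
    DD.nu_nil DD.nu_one prim_addF.to_comp prim_mulF.to_comp prim_negF.to_comp zt prim_zt.to_comp
    zt_iff

end Pool.Agent.H696R2.FR
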