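import Mathlib
import Pool.Agent.H696R2.FR.Comp

set_option autoImplicit false

/-! No copy of the field has a computable ordering. -/

namespace Pool.Agent.H696R2.FR

open Polynomial Dat
open Nat.Partrec (Code)
open Pool.Agent.Helper223 (comp_find)

section cone

variable {F : Type} [Field F] (P : Set F) (h0 : (0 : F) ∉ P)
  (hadd : ∀ x y : F, x ∈ P → y ∈ P → x + y ∈ P)
  (hmul : ∀ x y : F, x ∈ P → y ∈ P → x * y ∈ P)
  (htot : ∀ x : F, x ≠ 0 → x ∈ P ∨ -x ∈ P)

include hmul htot in
theorem sq_mem (x : F) (hx : x ≠ 0) : x * x ∈ P := by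
  rcases htot x hx with h | h
  · exact hmul _ _ h h
  · have := hmul _ _ h h
    rwa [neg_mul_neg] at this

include h0 hadd in
theorem not_both (x : F) (hx : x ∈ P) : -x ∉ P := by
  intro h
  have := hadd _ _ hx h
  rw [add_neg_cancel] at this
  exact h0 this

include h0 hadd hmul htot in
theorem of_mul (x y : F) (hx : x ∈ P) (hxy : x * y ∈ P) : y ∈ P := by
  by_contra hy
  by_cases hy0 : y = 0
  · rw [hy0, mul_zero] at hxy; exact h0 hxy
  · rcases htot y hy0 with h | h
    · exact hy h
    · have := hmul _ _ hx h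
      rw [mul_neg] at this
      exact not_both P h0 hadd _ hxy this

include h0 hadd hmul htot in
theorem nat_mem (n : ℕ) : ((n + 1 : ℕ) : F) ∈ P := by
  have h1 : (1 : F) ∈ P := by
    have := sq_mem P hmul htot 1 one_ne_zero
    rwa [mul_one] at this
  induction n with
  | zero => simpa using h1
  | succ n ih =>
    rw [Nat.cast_succ]
    exact hadd _ _ ih h1

end cone

theorem no_copy (F : Subfield ℝ) (hF : ∀ a, DD.nu a ∈ F) (e : ℕ ≃ F)
    (cadd : Computable₂ (fun a b : ℕ => e.symm (e a + e b)))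
    (cmul : Computable₂ (fun a b : ℕ => e.symm (e a * e b)))
    (cneg : Computable (fun a : ℕ => e.symm (-(e a))))
    (P : Set F) (hP : ComputablePred (fun a : ℕ => e a ∈ P)) (h0 : (0 : F) ∉ P)
    (hadd : ∀ x y : F, x ∈ P → y ∈ P → x + y ∈ P)
    (hmul : ∀ x y : F, x ∈ P → y ∈ P → x * y ∈ P)
    (htot : ∀ x : F, x ≠ 0 → x ∈ P ∨ -x ∈ P) : False := by
  classical
  -- the generators
  have htF : tau ∈ F := by
    have := hF [(1, [0])]
    have h1 : DD.nu [(1, [0])] = tau := by simp [nu, wv, lv, DD]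
    rwa [h1] at this
  have hsF : ∀ i, DD.s i ∈ F := by
    intro i
    have := hF [(1, [i + 1])]
    have h1 : DD.nu [(1, [i + 1])] = DD.s i := by simp [nu, wv, lv]
    rwa [h1] at this
  let t : F := ⟨tau, htF⟩
  let s : ℕ → F := fun i => ⟨DD.s i, hsF i⟩
  have hs : ∀ i, s i * s i = (((par i).1.1 : F) * t + ((par i).1.2 : F)) *
      (((par i).2.1 : F) * t + ((par i).2.2 : F)) := by
    intro i
    apply Subtype.ext
    have h1 : DD.s i * DD.s i = aeval tau (VV i) := DD.s_sq i
    rw [VV_eval] at h1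
    have h2 : ((s i * s i : F) : ℝ) = DD.s i * DD.s i := rfl
    rw [h2, h1]
    push_cast
    rfl
  have hs0 : ∀ i, s i ≠ 0 := by
    intro i h
    have h1 : DD.s i = 0 := congrArg Subtype.val h
    have h2 := DD.s_sq i
    rw [h1, mul_zero] at h2
    have h3 : 0 < DD.ev (DD.V i) := DD.pos i
    rw [← h2] at h3
    exact lt_irrefl _ h3
  have hspos : ∀ i, (((par i).1.1 : F) * t + ((par i).1.2 : F)) *
      (((par i).2.1 : F) * t + ((par i).2.2 : F)) ∈ P := by
    intro i
    rw [← hs]
    exact sq_mem P hmul htot _ (hs0 i)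
  have hnat : ∀ n : ℕ, 0 < n → (n : F) ∈ P := by
    intro n hn
    obtain ⟨m, rfl⟩ := Nat.exists_eq_succ_of_ne_zero (Nat.pos_iff_ne_zero.1 hn)
    exact nat_mem P h0 hadd hmul htot m
  have hnb := not_both P h0 hadd
  -- `1/4 < t < 3/4` in the ordering
  have h2P : (2 : F) ∈ P := by exact_mod_cast hnat 2 (by norm_num)
  have hprod : (4 * t - 1) * (3 - 4 * t) ∈ P := by
    have := hspos 0
    rw [par_zero] at this
    push_cast at this
    convert this using 2 <;> ring
  have hlo : 4 * t - 1 ∈ P := by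
    by_contra hcon
    have hne : 4 * t - 1 ≠ 0 := by
      intro h; rw [h, zero_mul] at hprod; exact h0 hprod
    have h1 : -(4 * t - 1) ∈ P := (htot _ hne).resolve_left hcon
    have h2 : -(4 * t - 1) * (-(3 - 4 * t)) ∈ P := by
      convert hprod using 1; ring
    have h3 := of_mul P h0 hadd hmul htot _ _ h1 h2
    have h4 := hadd _ _ h1 h3
    have h5 : -(4 * t - 1) + -(3 - 4 * t) = -(2 : F) := by ring
    rw [h5] at h4
    exact hnb _ h2P h4
  have hhi : 3 - 4 * t ∈ P := of_mul P h0 hadd hmul htot _ _ hlo hprod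
  have htrans : ∀ (N : ℕ) (m : ℕ), 0 < N → (N : F) * t - (m : F) ≠ 0 := by
    intro N m hN h
    have h1 : (N : ℝ) * tau - (m : ℝ) = 0 := by
      have := congrArg (Subtype.val (p := fun x => x ∈ F)) h
      simpa using this
    apply tau_trans
    refine ⟨(N : ℤ[X]) * X - (m : ℤ[X]), ?_, ?_⟩
    · intro h2
      have h3 := congrArg (fun p => Polynomial.coeff p 1) h2
      have h4 : ((N : ℤ[X]) * X - (m : ℤ[X])) = C (N : ℤ) * X - C (m : ℤ) := by simp
      rw [h4] at h3
      simp [coeff_C] at h3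
      omega
    · simpa using h1
  -- existence of the approximation
  have hex : ∀ n : ℕ, ∃ m : ℕ, (NN n : F) * t - (m : F) ∉ P := by
    intro n
    refine ⟨NN n, ?_⟩
    intro h
    have hN : 0 < NN n := by unfold NN; positivity
    have h1 : (4 : F) ∈ P := by exact_mod_cast hnat 4 (by norm_num)
    have h2 := hmul _ _ h1 h
    have h3 := hmul _ _ (hnat _ hN) hhi
    have h4 := hadd _ _ (hadd _ _ h2 h3) (hnat _ hN)
    have h5 : 4 * ((NN n : F) * t - (NN n : F)) + (NN n : F) * (3 - 4 * t) + (NN n : F) = 0 := by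
      ring
    rw [h5] at h4
    exact h0 h4
  -- computability
  obtain ⟨hdec, hPc⟩ := hP
  have hidx : Computable (fun n : ℕ => e.symm (n : F)) := by
    have h1 : Computable (fun n : ℕ => Nat.rec (motive := fun _ => ℕ) (e.symm 0)
        (fun _ y => e.symm (e y + e (e.symm 1))) n) := by
      refine Computable.nat_rec (f := fun n : ℕ => n) (g := fun _ => e.symm 0)
        (h := fun _ p => e.symm (e p.2 + e (e.symm 1))) Computable.id (Computable.const _) ?_
      exact cadd.comp (Computable.snd.comp Computable.snd) (Computable.const _)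
    refine h1.of_eq fun n => ?_
    induction n with
    | zero => simp
    | succ n ih =>
      show e.symm (e (Nat.rec (motive := fun _ => ℕ) (e.symm 0)
        (fun _ y => e.symm (e y + e (e.symm 1))) n) + e (e.symm 1)) = _
      rw [ih]
      simp
  let Q : ℕ → ℕ → Bool := fun n m => !(@decide (e (e.symm ((NN n : F) * t - (m : F))) ∈ P) (hdec _))
  have hQ : ∀ n m, Q n m = true ↔ (NN n : F) * t - (m : F) ∉ P := by
    intro n m
    simp only [Q, Bool.not_eq_true', decide_eq_false_iff_not, Equiv.apply_symm_apply]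
  have hQc : Computable₂ Q := by
    have h1 : Computable (fun p : ℕ × ℕ => e.symm (e (e.symm (e (e.symm ((NN p.1 : ℕ) : F)) *
        e (e.symm t))) + e (e.symm (-(e (e.symm ((p.2 : ℕ) : F))))))) := by
      refine cadd.comp (cmul.comp (hidx.comp (prim_NN.to_comp.comp Computable.fst))
        (Computable.const _)) (cneg.comp (hidx.comp Computable.snd))
    have h2 : Computable (fun p : ℕ × ℕ => e.symm ((NN p.1 : F) * t - (p.2 : F))) := by
      refine h1.of_eq fun p => ?_
      simp [sub_eq_add_neg]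
    exact (Primrec.not.to_comp).comp (hPc.comp h2)
  have hex' : ∀ n, ∃ m, Q n m = true := fun n => by
    obtain ⟨m, hm⟩ := hex n
    exact ⟨m, (hQ n m).2 hm⟩
  let g : ℕ → ℕ := fun n => Nat.find (hex' n) - 1
  have hg : Computable g :=
    (Primrec.pred.to_comp).comp (comp_find Q hQc hex')
  -- properties of `g`
  have hNlarge : ∀ n, 16 < NN n := by
    intro n
    have h1 := NN_ge n
    have h2 : 2 ^ 4 ≤ 2 ^ (n + 4) := Nat.pow_le_pow_right (by norm_num) (by omega)
    obtain ⟨m, hm⟩ := NN_odd n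
    omega
  have hfind_ge : ∀ n, 2 ≤ Nat.find (hex' n) := by
    intro n
    by_contra hlt
    have h1 := (hQ _ _).1 (Nat.find_spec (hex' n))
    have h2 := hNlarge n
    -- `N t ∈ P` and `N t - 1 ∈ P`
    have h4P : (4 : F) ∈ P := by exact_mod_cast hnat 4 (by norm_num)
    have h3 := hmul _ _ (hnat _ (by omega : 0 < NN n)) hlo
    obtain ⟨M, hM⟩ : ∃ M : ℕ, NN n = M + 4 := ⟨NN n - 4, by omega⟩
    rcases (by omega : Nat.find (hex' n) = 0 ∨ Nat.find (hex' n) = 1) with h4 | h4
    · rw [h4] at h1
      apply h1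
      apply of_mul P h0 hadd hmul htot _ _ h4P
      have h5 := hadd _ _ h3 (hnat _ (by omega : 0 < NN n))
      convert h5 using 1
      push_cast; ring
    · rw [h4] at h1
      apply h1
      apply of_mul P h0 hadd hmul htot _ _ h4P
      have h5 := hadd _ _ h3 (hnat M (by omega))
      convert h5 using 1
      rw [hM]; push_cast; ring
  have hfind_le : ∀ n, Nat.find (hex' n) + 1 ≤ NN n := by
    intro n
    have h2 := hNlarge n
    obtain ⟨M, hM⟩ : ∃ M : ℕ, NN n = M + 4 := ⟨NN n - 4, by omega⟩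
    have h1 : Q n (NN n - 1) = true := by
      rw [hQ]
      intro h
      have h4P : (4 : F) ∈ P := by exact_mod_cast hnat 4 (by norm_num)
      have h3 := hmul _ _ (hnat _ (by omega : 0 < NN n)) hhi
      have h5 := hadd _ _ (hadd _ _ (hmul _ _ h4P h) h3) (hnat M (by omega))
      have h6 : ((NN n - 1 : ℕ) : F) = (M : F) + 3 := by
        have : NN n - 1 = M + 3 := by omega
        rw [this]; push_cast; ring
      rw [h6] at h5
      have h7 : 4 * ((NN n : F) * t - ((M : F) + 3)) + (NN n : F) * (3 - 4 * t) + (M : F) = 0 := by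
        rw [hM]; push_cast; ring
      rw [h7] at h5
      exact h0 h5
    have h3 := Nat.find_min' (hex' n) h1
    omega
  have hg1 : ∀ n, (NN n : F) * t - (g n : F) ∈ P := by
    intro n
    have h1 := hfind_ge n
    have h2 := Nat.find_min (hex' n) (m := Nat.find (hex' n) - 1) (by omega)
    have h3 := (hQ n (Nat.find (hex' n) - 1))
    by_contra h4
    exact h2 (h3.2 h4)
  have hg2 : ∀ n, -((NN n : F) * t - ((g n + 1 : ℕ) : F)) ∈ P := by
    intro n
    have h1 := hfind_ge n
    have h2 := (hQ _ _).1 (Nat.find_spec (hex' n))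
    have h3 : g n + 1 = Nat.find (hex' n) := by
      show Nat.find (hex' n) - 1 + 1 = _
      omega
    rw [h3]
    exact (htot _ (htrans _ _ (by have := hNlarge n; omega))).resolve_left h2
  -- diagonalisation
  obtain ⟨c, hc⟩ := Code.exists_code.1 (Partrec.nat_iff.1 hg)
  let n0 := Encodable.encode c
  have hn0 : Denumerable.ofNat Code n0 = c := Denumerable.ofNat_encode c
  have hk : g n0 ∈ Code.eval (Denumerable.ofNat Code n0) n0 := by
    rw [hn0, hc]
    exact Part.mem_some _
  have hk1 : 0 < g n0 := by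
    have := hfind_ge n0
    show 0 < Nat.find (hex' n0) - 1
    omega
  have hk2 : g n0 + 1 < NN n0 := by
    have h1 := hfind_ge n0
    have h2 := hfind_le n0
    show Nat.find (hex' n0) - 1 + 1 < NN n0
    omega
  obtain ⟨st, hst⟩ := exists_newVal hk hk1 hk2
  have hpar := par_some (j := Nat.pair n0 st) (k := g n0)
    (by rw [Nat.unpair_pair]; exact hst)
  rw [Nat.unpair_pair] at hpar
  have h1 := hspos (Nat.pair n0 st + 1)
  rw [hpar] at h1
  have h2 := hmul _ _ (hg1 n0) (hg2 n0)
  have h3 := hadd _ _ h1 h2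
  apply h0
  convert h3 using 1
  push_cast
  ring

end Pool.Agent.H696R2.FR
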